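import Pool.Agent.WND.Defs

set_option autoImplicit false

open Finset

namespace Pool.Agent.WND

private theorem CHO_eta (s t : ℝ)
    (hk : ¬ ∃ k : ℕ, 1 ≤ k ∧ ∀ x : ℝ, s < x → x < t → 1 / 4 ≤ distInt (k * x)) (M : ℕ) :
    ∃ η : ℝ, 0 < η ∧ ∀ k : ℕ, 1 ≤ k → k ≤ M →
      ∃ x : ℝ, s + η ≤ x ∧ x ≤ t - η ∧ distInt (k * x) ≤ 1 / 4 - η := by
  induction M with
  | zero =>
    refine ⟨1, one_pos, fun k h1 h2 => ?_⟩
    omega
  | succ M ih =>
    obtain ⟨η, hη, h⟩ := ih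
    have h1 : ¬ ∀ x : ℝ, s < x → x < t → 1 / 4 ≤ distInt (((M + 1 : ℕ) : ℝ) * x) := by
      intro h2
      exact hk ⟨M + 1, by omega, h2⟩
    push Not at h1
    obtain ⟨x, hx1, hx2, hx3⟩ := h1
    have e1 : 0 < x - s := by linarith
    have e2 : 0 < t - x := by linarith
    have e3 : 0 < 1 / 4 - distInt (((M + 1 : ℕ) : ℝ) * x) := by linarith
    refine ⟨min η (min (x - s) (min (t - x) (1 / 4 - distInt (((M + 1 : ℕ) : ℝ) * x)))),
      lt_min hη (lt_min e1 (lt_min e2 e3)), ?_⟩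
    intro k hk1 hk2
    have m1 : min η (min (x - s) (min (t - x) (1 / 4 - distInt (((M + 1 : ℕ) : ℝ) * x)))) ≤ η :=
      min_le_left _ _
    have m2 : min η (min (x - s) (min (t - x) (1 / 4 - distInt (((M + 1 : ℕ) : ℝ) * x)))) ≤
        min (x - s) (min (t - x) (1 / 4 - distInt (((M + 1 : ℕ) : ℝ) * x))) := min_le_right _ _
    rcases Nat.lt_or_ge k (M + 1) with h3 | h3
    · obtain ⟨y, hy1, hy2, hy3⟩ := h k hk1 (by omega)
      exact ⟨y, by linarith, by linarith, by linarith⟩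
    · have h4 : k = M + 1 := by omega
      subst h4
      have m3 := m2.trans (min_le_left _ _)
      have m4 := (m2.trans (min_le_right _ _)).trans (min_le_left _ _)
      have m5 := (m2.trans (min_le_right _ _)).trans (min_le_right _ _)
      exact ⟨x, by linarith, by linarith, by linarith⟩

/-- the choice of `q` -/
theorem choose_q (s t : ℝ) (hs : 0 ≤ s) (hst : s < t) (ht : t ≤ 1)
    (hk : ¬ ∃ k : ℕ, 1 ≤ k ∧ ∀ x : ℝ, s < x → x < t → 1 / 4 ≤ distInt (k * x)) :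
    ∃ (M q : ℕ) (a b : ℤ), 2 ≤ M ∧ Odd q ∧ 1000 * M ^ 4 ≤ q ∧ 0 < a ∧ b < q ∧
      s * q < a ∧ (b : ℝ) < t * q ∧ 4 * (q : ℤ) ≤ M * (b - a) ∧
      ∀ k : ℤ, 1 ≤ k → k * (b - a) ≤ q →
        ∃ d, a + 200 * (M : ℤ) ^ 2 ≤ d ∧ d ≤ b - 200 * (M : ℤ) ^ 2 ∧
          ∃ n : ℤ, 4 * |k * d - n * q| < q := by
  have hκ : 0 < t - s := by linarith
  obtain ⟨M0, hM0⟩ := exists_nat_ge (8 / (t - s))
  obtain ⟨M, hMd⟩ : ∃ M : ℕ, M = M0 + 2 := ⟨_, rfl⟩
  have hM : (8 : ℝ) ≤ M * (t - s) := by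
    have h1 : 8 ≤ M0 * (t - s) := by
      rwa [div_le_iff₀ hκ] at hM0
    have h2 : ((M : ℕ) : ℝ) = M0 + 2 := by rw [hMd]; push_cast; ring
    rw [h2]
    nlinarith
  have hM2 : 2 ≤ M := by omega
  obtain ⟨η, hη, hx⟩ := CHO_eta s t hk M
  obtain ⟨K0, hK0⟩ := exists_nat_ge ((2 + 200 * (M : ℝ) ^ 2 + M) / η)
  rw [div_le_iff₀ hη] at hK0
  obtain ⟨q, hqd⟩ : ∃ q : ℕ, q = 2 * (K0 + 1000 * M ^ 4) + 1 := ⟨_, rfl⟩
  have hqK : (K0 : ℝ) ≤ q := by
    have : K0 ≤ q := by omega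
    exact_mod_cast this
  have hq1 : 1000 * M ^ 4 ≤ q := by omega
  have hMq : M ≤ q := by
    have h1 : M ≤ M ^ 4 := Nat.le_self_pow (by norm_num) M
    omega
  have hq0 : (0 : ℝ) < q := by
    have : 0 < q := by omega
    exact_mod_cast this
  have hηq : 2 + 200 * (M : ℝ) ^ 2 + M ≤ η * q := by nlinarith
  have hMqR : (M : ℝ) ≤ q := by exact_mod_cast hMq
  have hM0R : (2 : ℝ) ≤ M := by exact_mod_cast hM2
  have ha1 : s * q < ((⌊s * q⌋ + 1 : ℤ) : ℝ) := by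
    push_cast
    exact Int.lt_floor_add_one _
  have ha2 : ((⌊s * q⌋ + 1 : ℤ) : ℝ) ≤ s * q + 1 := by
    push_cast
    linarith [Int.floor_le (s * q)]
  have hb1 : ((⌈t * q⌉ - 1 : ℤ) : ℝ) < t * q := by
    push_cast
    linarith [Int.ceil_lt_add_one (t * q)]
  have hb2 : t * q - 1 ≤ ((⌈t * q⌉ - 1 : ℤ) : ℝ) := by
    push_cast
    linarith [Int.le_ceil (t * q)]
  set a : ℤ := ⌊s * q⌋ + 1 with had
  set b : ℤ := ⌈t * q⌉ - 1 with hbd
  have h4 : 4 * (q : ℤ) ≤ M * (b - a) := by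
    have h1 : (4 : ℝ) * q ≤ M * ((b : ℝ) - a) := by
      have e1 : (t - s) * q - 2 ≤ (b : ℝ) - a := by nlinarith
      have e2 : (M : ℝ) * ((t - s) * q - 2) ≤ M * ((b : ℝ) - a) :=
        mul_le_mul_of_nonneg_left e1 (by linarith)
      have e3 : 8 * (q : ℝ) ≤ M * (t - s) * q := mul_le_mul_of_nonneg_right hM hq0.le
      nlinarith
    exact_mod_cast h1
  refine ⟨M, q, a, b, hM2, ⟨K0 + 1000 * M ^ 4, hqd⟩, hq1, ?_, ?_, ha1, hb1, h4, ?_⟩
  · have h1 : (0 : ℝ) < a := lt_of_le_of_lt (by positivity) ha1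
    exact_mod_cast h1
  · have h1 : (b : ℝ) < (q : ℝ) := lt_of_lt_of_le hb1 (by nlinarith)
    exact_mod_cast h1
  · intro k hk1 hk2
    have hkM : k ≤ M := by
      have h0 : (0 : ℤ) < q := by exact_mod_cast hq0
      have h5 : 0 < b - a := by
        by_contra h
        push Not at h
        have h6 : (M : ℤ) * (b - a) ≤ 0 := mul_nonpos_of_nonneg_of_nonpos (by positivity) h
        omega
      by_contra h
      push Not at h
      have h6 : (M : ℤ) * (b - a) < k * (b - a) := mul_lt_mul_of_pos_right h h5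
      omega
    obtain ⟨x, hx1, hx2, hx3⟩ := hx k.toNat (by omega) (by omega)
    have hkc : ((k.toNat : ℕ) : ℝ) = (k : ℝ) := by
      have : ((k.toNat : ℕ) : ℤ) = k := Int.toNat_of_nonneg (by omega)
      exact_mod_cast this
    rw [hkc] at hx3
    have hd1 : ((⌊x * q⌋ : ℤ) : ℝ) ≤ x * q := Int.floor_le _
    have hd2 : x * q - 1 < ((⌊x * q⌋ : ℤ) : ℝ) := Int.sub_one_lt_floor _
    set d : ℤ := ⌊x * q⌋ with hdd
    refine ⟨d, ?_, ?_, round (k * x), ?_⟩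
    · have h1 : (a : ℝ) + 200 * (M : ℝ) ^ 2 ≤ d := by nlinarith
      exact_mod_cast h1
    · have h1 : (d : ℝ) ≤ b - 200 * (M : ℝ) ^ 2 := by nlinarith
      exact_mod_cast h1
    · have hkR : (1 : ℝ) ≤ k := by exact_mod_cast hk1
      have hkMR : (k : ℝ) ≤ M := by exact_mod_cast hkM
      have e0 : |(k : ℝ) * x - round ((k : ℝ) * x)| ≤ 1 / 4 - η := hx3
      have e1 : |(k : ℝ) * d - round ((k : ℝ) * x) * q| ≤ (1 / 4 - η) * q + M := by
        have e2 : (k : ℝ) * d - round ((k : ℝ) * x) * q =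
            ((k : ℝ) * x - round ((k : ℝ) * x)) * q + k * (d - x * q) := by ring
        rw [e2]
        refine (abs_add_le _ _).trans ?_
        rw [abs_mul, abs_mul, abs_of_pos hq0, abs_of_pos (lt_of_lt_of_le one_pos hkR)]
        have e3 : |(d : ℝ) - x * q| ≤ 1 := by
          rw [abs_le]
          constructor <;> linarith
        have e4 : (k : ℝ) * |(d : ℝ) - x * q| ≤ M * 1 :=
          mul_le_mul hkMR e3 (abs_nonneg _) (by linarith)
        have e5 := mul_le_mul_of_nonneg_right e0 hq0.le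
        linarith
      have e6 : 4 * |(k : ℝ) * d - round ((k : ℝ) * x) * q| < q := by nlinarith
      exact_mod_cast e6

end Pool.Agent.WND
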