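import Pool.Agent.WND.Defs

/-!
# WND: the converse (row CNV)
-/

set_option autoImplicit false

open Finset

namespace Pool.Agent.WND

theorem distInt_pos_cnv {x : ℝ} (hx : ∀ n : ℤ, x ≠ n) : 0 < distInt x := by
  unfold distInt
  exact abs_pos.2 (sub_ne_zero.2 (hx _))

/-- the half circle colouring -/
noncomputable def colCnv (α : ℝ) : ℤ → Bool := fun x => decide (Int.fract (α * x) < 1 / 2)

/-- two points of the same half circle differ by less than one half -/
theorem same_half_cnv {y z : ℝ}
    (h : decide (Int.fract y < 1 / 2) = decide (Int.fract z < 1 / 2)) :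
    |Int.fract z - Int.fract y| < 1 / 2 := by
  have h' : (Int.fract y < 1 / 2) ↔ (Int.fract z < 1 / 2) := by simpa using h
  have a1 := Int.fract_nonneg y
  have a2 := Int.fract_lt_one y
  have b1 := Int.fract_nonneg z
  have b2 := Int.fract_lt_one z
  rw [abs_lt]
  by_cases hy : Int.fract y < 1 / 2
  · have hz := h'.1 hy
    constructor <;> linarith
  · have hz : ¬ Int.fract z < 1 / 2 := fun hz => hy (h'.2 hz)
    push Not at hy hz
    constructor <;> linarith

/-- A monochromatic progression of the half circle colouring is short. -/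
theorem mono_short_cnv (α : ℝ) (d n : ℕ) (b : Bool) (h : HasAP (colCnv α) b d (n + 1)) :
    n * distInt (α * d) < 1 / 2 := by
  obtain ⟨a, ha⟩ := h
  set y : ℕ → ℝ := fun i => Int.fract (α * ((a + i * d : ℤ) : ℝ)) with hy
  set θ : ℝ := α * d - round (α * d) with hθ
  have hstep : ∀ i < n, y (i + 1) - y i = θ ∧ |θ| < 1 / 2 := by
    intro i hi
    have h1 : |y (i + 1) - y i| < 1 / 2 := by
      apply same_half_cnv
      have e0 := ha i (by omega)
      have e1 := ha (i + 1) (by omega)
      unfold colCnv at e0 e1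
      rw [e0, e1]
    have h2 : ∃ m : ℤ, y (i + 1) - y i = α * d - m := by
      refine ⟨⌊α * ((a + (i + 1 : ℕ) * d : ℤ) : ℝ)⌋ - ⌊α * ((a + i * d : ℤ) : ℝ)⌋, ?_⟩
      simp only [hy, Int.fract]
      push_cast
      ring
    obtain ⟨m, hm⟩ := h2
    have h3 : m = round (α * d) := by
      rw [hm] at h1
      symm
      rw [round_eq, Int.floor_eq_iff]
      rw [abs_lt] at h1
      constructor <;> linarith [h1.1, h1.2]
    have h4 : y (i + 1) - y i = θ := by rw [hm, h3]
    exact ⟨h4, h4 ▸ h1⟩
  have hsum : ∀ i ≤ n, y i = y 0 + i * θ := by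
    intro i
    induction i with
    | zero => intro _; simp
    | succ i ih =>
      intro hi
      have := (hstep i (by omega)).1
      rw [ih (by omega)] at this
      push_cast
      linarith
  have hn := hsum n le_rfl
  have hlast : |y n - y 0| < 1 / 2 := by
    apply same_half_cnv
    have e0 := ha 0 (by omega)
    have e1 := ha n (by omega)
    unfold colCnv at e0 e1
    rw [e0, e1]
  rw [hn] at hlast
  have : |(y 0 + n * θ) - y 0| = n * distInt (α * d) := by
    rw [add_sub_cancel_left, abs_mul, Nat.abs_cast]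
    rfl
  rw [this] at hlast
  exact hlast

theorem distInt_sub_int_cnv (x : ℝ) (n : ℤ) : distInt (x - n) = distInt x := by
  unfold distInt
  rw [round_sub_intCast]
  push_cast
  congr 1
  ring

/-- ROW CNV: if some k is good on the arc then the arc does not force admissibility. -/
theorem converse (α : ℝ) (hα : Irrational α) (s t : ℝ)
    (hk : ∃ k : ℕ, 1 ≤ k ∧ ∀ x : ℝ, s < x → x < t → 1 / 4 ≤ distInt (k * x)) :
    ∃ f : ℕ → ℕ, (∀ d : ℕ, 1 ≤ d → s < Int.fract (α * d) → Int.fract (α * d) < t → f d ≤ 3) ∧
      ¬ Admissible f := by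
  classical
  obtain ⟨k, hk1, hk⟩ := hk
  set β : ℝ := k * α with hβ
  have hβi : Irrational β := by
    rw [hβ]
    exact hα.natCast_mul (by omega)
  have harc : ∀ d : ℕ, s < Int.fract (α * d) → Int.fract (α * d) < t →
      1 / 4 ≤ distInt (β * d) := by
    intro d h1 h2
    have h3 := hk _ h1 h2
    have h4 : (k : ℝ) * Int.fract (α * d) = β * d - ((k * ⌊α * (d : ℝ)⌋ : ℤ) : ℝ) := by
      rw [hβ, Int.fract]
      push_cast
      ring
    rw [h4, distInt_sub_int_cnv] at h3
    exact h3
  refine ⟨fun d => if s < Int.fract (α * d) ∧ Int.fract (α * d) < t then 3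
    else ⌈1 / distInt (β * d)⌉₊ + 2, ?_, ?_⟩
  · intro d _ h1 h2
    simp [h1, h2]
  · intro hadm
    obtain ⟨b, hb⟩ := hadm (colCnv β)
    refine hb ?_
    convert Set.finite_empty
    rw [Set.eq_empty_iff_forall_notMem]
    rintro d ⟨hd1, hd⟩
    have hpos : 0 < distInt (β * d) := by
      refine distInt_pos_cnv fun n => ?_
      have := (hβi.mul_natCast (m := d) (by omega)).ne_int n
      exact this
    by_cases hcd : s < Int.fract (α * d) ∧ Int.fract (α * d) < t
    · simp only [hcd, and_self, if_true] at hd
      have h1 := mono_short_cnv β d 2 b hd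
      have h2 := harc d hcd.1 hcd.2
      push_cast at h1
      linarith
    · simp only [hcd, if_false] at hd
      have h0 := mono_short_cnv β d (⌈1 / distInt (β * d)⌉₊ + 1) b hd
      have h1 := Nat.le_ceil (1 / distInt (β * d))
      rw [div_le_iff₀ hpos] at h1
      push_cast at h0
      nlinarith

end Pool.Agent.WND
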