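import Pool.Agent.WND.Defs

/-!
# WND, row LIM: limits of colourings along an ultrafilter
-/

set_option autoImplicit false

open Finset

namespace Pool.Agent.WND

private lemma lim_val (g : ℕ → Bool) :
    ∃ v : Bool, ∀ᶠ n in (Filter.hyperfilter ℕ : Filter ℕ), g n = v := by
  rcases (Ultrafilter.em (Filter.hyperfilter ℕ) (fun n => g n = true)) with h | h
  · exact ⟨true, h⟩
  · refine ⟨false, ?_⟩
    filter_upwards [h] with n hn
    simpa using hn

private lemma lim_ge (n0 : ℕ) :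
    ∀ᶠ n in (Filter.hyperfilter ℕ : Filter ℕ), n0 ≤ n := by
  have h1 : ∀ᶠ n in (Filter.atTop : Filter ℕ), n0 ≤ n := Filter.eventually_ge_atTop n0
  rw [← Nat.cofinite_eq_atTop] at h1
  exact Filter.hyperfilter_le_cofinite h1

theorem limit_col (c : ℕ → ℤ → Bool) : ∃ C : ℤ → Bool,
    (∀ F : Finset ℤ, ∀ n0 : ℕ, ∃ n, n0 ≤ n ∧ ∀ x ∈ F, c n x = C x) ∧
    ∀ (x : ℤ) (v : Bool), (∃ n0 : ℕ, ∀ n, n0 ≤ n → c n x = v) → C x = v := by
  choose C hC using fun x => lim_val (fun n => c n x)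
  refine ⟨C, ?_, ?_⟩
  · intro F n0
    have h1 : ∀ᶠ n in (Filter.hyperfilter ℕ : Filter ℕ), ∀ x ∈ F, c n x = C x := by
      rw [Filter.eventually_all_finset]
      intro x _
      exact hC x
    obtain ⟨n, hn1, hn2⟩ := ((lim_ge n0).and h1).exists
    exact ⟨n, hn1, hn2⟩
  · rintro x v ⟨n0, hn0⟩
    obtain ⟨n, hn1, hn2⟩ := ((lim_ge n0).and (hC x)).exists
    exact hn2.symm.trans (hn0 n hn1)

end Pool.Agent.WND
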