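import Pool.Agent.WND.Defs
import Pool.Agent.WND.Lim

set_option autoImplicit false

open Finset

namespace Pool.Agent.WND

private theorem PER_J {q : ℕ} {J : ℤ → Prop} (hJ : ∀ d, J (d + q) ↔ J d) (d k : ℤ) :
    J (d + q * k) ↔ J d := by
  induction k using Int.induction_on with
  | zero => simp
  | succ i ih =>
    have e : d + q * ((i : ℤ) + 1) = (d + q * i) + q := by ring
    rw [e, hJ, ih]
  | pred i ih =>
    have e : d + q * (-(i : ℤ)) = (d + q * (-(i : ℤ) - 1)) + q := by ring
    rw [e, hJ] at ih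
    exact ih

/-- avoiding -/
def PerAv (J : ℤ → Prop) (C : ℤ → Bool) : Prop :=
  ∀ x d, J d → ¬ (C (x + d) = C x ∧ C (x + 2 * d) = C x)

/-- the class of `a` modulo `2 q` has one colour -/
def PerPu (q : ℕ) (C : ℤ → Bool) (a : ℤ) : Prop := ∀ i : ℤ, C (a + 2 * q * i) = C a

private theorem PER_shift {q : ℕ} {C : ℤ → Bool} {a : ℤ} (k : ℤ) (h : PerPu q C a) :
    PerPu q C (a + 2 * q * k) := by
  intro i
  have e : a + 2 * q * k + 2 * q * i = a + 2 * q * (k + i) := by ring
  rw [e, h, h]

private theorem PER_col {q : ℕ} {C : ℤ → Bool} {a : ℤ} (h : ¬ PerPu q C a) (c : Bool) :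
    ∃ i : ℤ, C (a + 2 * q * i) = c := by
  unfold PerPu at h
  push Not at h
  obtain ⟨i, hi⟩ := h
  by_cases hc : C a = c
  · exact ⟨0, by simpa using hc⟩
  · refine ⟨i, ?_⟩
    cases h1 : C a <;> cases h2 : C (a + 2 * q * i) <;> cases c <;> simp_all

private theorem PER_not {x y c : Bool} (h : x ≠ c) (h' : y ≠ c) : x = y := by
  cases x <;> cases y <;> cases c <;> simp_all

private theorem PER_ap {q : ℕ} {J : ℤ → Prop} (hJ : ∀ d, J (d + q) ↔ J d) {C : ℤ → Bool}
    (hC : PerAv J C) {a d : ℤ} (hd : J d) (i k : ℤ) (c : Bool)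
    (h1 : C (a + 2 * q * i) = c) (h2 : C (a + d + q * (i + k)) = c)
    (h3 : C (a + 2 * d + 2 * q * k) = c) : False := by
  have hd' : J (d + q * (k - i)) := (PER_J hJ d (k - i)).2 hd
  apply hC (a + 2 * q * i) _ hd'
  have e1 : a + 2 * q * i + (d + q * (k - i)) = a + d + q * (i + k) := by ring
  have e2 : a + 2 * q * i + 2 * (d + q * (k - i)) = a + 2 * d + 2 * q * k := by ring
  rw [e1, e2, h1, h2, h3]
  exact ⟨rfl, rfl⟩

private theorem PER_b1 {q : ℕ} {J : ℤ → Prop} (hJ : ∀ d, J (d + q) ↔ J d) {C : ℤ → Bool}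
    (hC : PerAv J C) {a d : ℤ} (hd : J d) (ha : ¬ PerPu q C a) (ha' : ¬ PerPu q C (a + 2 * d)) :
    ∃ C' : ℤ → Bool, PerAv J C' ∧ (∀ r, PerPu q C r → PerPu q C' r) ∧ PerPu q C' a := by
  obtain ⟨k, hk⟩ : ∃ k : ℤ, C (a + 2 * d + 2 * q * k) ≠ C (a + 2 * d + 2 * q * (k + 1)) := by
    by_contra hcon
    push Not at hcon
    apply ha'
    intro i
    induction i using Int.induction_on with
    | zero => simp
    | succ i ih => rw [← hcon, ih]
    | pred i ih =>
      have h := hcon (-(i : ℤ) - 1)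
      have e : -(i : ℤ) - 1 + 1 = -(i : ℤ) := by ring
      rw [e, ih] at h
      exact h
  obtain ⟨c, hc⟩ : ∃ c, C (a + 2 * d + 2 * q * (k + 1)) = c := ⟨_, rfl⟩
  rw [hc] at hk
  have hstep : ∀ i : ℤ, C (a + 2 * q * i) = c → C (a + 2 * q * (i + 1)) = c := by
    intro i hi
    by_contra hne
    have hv : C (a + d + q * (i + (k + 1))) ≠ c := fun h => PER_ap hJ hC hd i (k + 1) c hi h hc
    have e : i + (k + 1) = i + 1 + k := by ring
    rw [e] at hv
    exact PER_ap hJ hC hd (i + 1) k _ (PER_not hne hk) (PER_not hv hk) rfl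
  obtain ⟨i0, hi0⟩ := PER_col ha c
  have hge : ∀ n : ℕ, C (a + 2 * q * (i0 + n)) = c := by
    intro n
    induction n with
    | zero => simpa using hi0
    | succ n ih =>
      have h := hstep _ ih
      have e : i0 + (n : ℤ) + 1 = i0 + ((n + 1 : ℕ) : ℤ) := by push_cast; ring
      rw [e] at h
      exact h
  obtain ⟨C', h1, h2⟩ := limit_col (fun n x => C (x + 2 * q * n))
  refine ⟨C', ?_, ?_, ?_⟩
  · intro x e he
    obtain ⟨n, -, hn⟩ := h1 {x, x + e, x + 2 * e} 0
    have a1 := hn x (by simp)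
    have a2 := hn (x + e) (by simp)
    have a3 := hn (x + 2 * e) (by simp)
    rw [← a1, ← a2, ← a3]
    have h := hC (x + 2 * q * n) e he
    have e1 : x + e + 2 * q * n = x + 2 * q * n + e := by ring
    have e2 : x + 2 * e + 2 * q * n = x + 2 * q * n + 2 * e := by ring
    rw [e1, e2]
    exact h
  · intro r hr i
    have key : ∀ j : ℤ, C' (r + 2 * q * j) = C r := fun j => h2 _ _ ⟨0, fun n _ => by
      have e : r + 2 * q * j + 2 * q * n = r + 2 * q * (j + n) := by ring
      show C (r + 2 * q * j + 2 * q * n) = C r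
      rw [e, hr]⟩
    rw [key i]
    have h := key 0
    simp only [mul_zero, add_zero] at h
    exact h.symm
  · intro i
    have key : ∀ j : ℤ, C' (a + 2 * q * j) = c := fun j => h2 _ _ ⟨(i0 - j).toNat, fun n hn => by
      have e : a + 2 * q * j + 2 * q * n = a + 2 * q * (i0 + ((n + j - i0).toNat : ℤ)) := by
        have e1 : (((n : ℤ) + j - i0).toNat : ℤ) = n + j - i0 := by
          apply Int.toNat_of_nonneg
          omega
        rw [e1]
        ring
      show C (a + 2 * q * j + 2 * q * n) = c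
      rw [e, hge]⟩
    rw [key i]
    have h := key 0
    simp only [mul_zero, add_zero] at h
    exact h.symm

/-- number of pure classes -/
noncomputable def PerNp (q : ℕ) (C : ℤ → Bool) : ℕ := by
  classical
  exact ((range (2 * q)).filter fun r : ℕ => PerPu q C r).card

private theorem PER_max {q : ℕ} {J : ℤ → Prop} {C : ℤ → Bool} (hC : PerAv J C) :
    ∃ C' : ℤ → Bool, PerAv J C' ∧ ∀ C'' : ℤ → Bool, PerAv J C'' → PerNp q C'' ≤ PerNp q C' := by
  classical
  by_contra hcon
  push Not at hcon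
  have h : ∀ n : ℕ, ∃ C' : ℤ → Bool, PerAv J C' ∧ n ≤ PerNp q C' := by
    intro n
    induction n with
    | zero => exact ⟨C, hC, Nat.zero_le _⟩
    | succ n ih =>
      obtain ⟨C', h1, h2⟩ := ih
      obtain ⟨C'', h3, h4⟩ := hcon C' h1
      exact ⟨C'', h3, by omega⟩
  obtain ⟨C', -, h2⟩ := h (2 * q + 1)
  have h3 : PerNp q C' ≤ 2 * q := by
    unfold PerNp
    exact (card_filter_le _ _).trans (by simp)
  omega

private theorem PER_lt {q : ℕ} (hq : 0 < q) {C C' : ℤ → Bool}
    (h : ∀ r, PerPu q C r → PerPu q C' r) {a : ℤ} (ha : ¬ PerPu q C a) (ha' : PerPu q C' a) :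
    PerNp q C < PerNp q C' := by
  classical
  have hq2 : (0 : ℤ) < 2 * q := by positivity
  obtain ⟨r, hr⟩ : ∃ r : ℕ, (r : ℤ) = a % (2 * q) :=
    ⟨(a % (2 * q)).toNat, Int.toNat_of_nonneg (Int.emod_nonneg _ hq2.ne')⟩
  have hr1 : (r : ℤ) < 2 * q := by rw [hr]; exact Int.emod_lt_of_pos _ hq2
  have hr2 : (r : ℤ) = a + 2 * q * (-(a / (2 * q))) := by
    rw [hr]
    have := Int.emod_add_mul_ediv a (2 * q)
    linarith
  have hr3 : a = r + 2 * q * (a / (2 * q)) := by
    rw [hr]
    have := Int.emod_add_mul_ediv a (2 * q)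
    linarith
  unfold PerNp
  apply card_lt_card
  rw [Finset.ssubset_iff_of_subset]
  · refine ⟨r, ?_, ?_⟩
    · rw [mem_filter, mem_range]
      refine ⟨by exact_mod_cast hr1, ?_⟩
      rw [hr2]
      exact PER_shift _ ha'
    · rw [mem_filter]
      rintro ⟨-, h2⟩
      apply ha
      rw [hr3]
      exact PER_shift _ h2
  · intro x hx
    rw [mem_filter] at hx ⊢
    exact ⟨hx.1, h _ hx.2⟩

theorem periodic (q : ℕ) (hq : Odd q) (J : ℤ → Prop) (hJ : ∀ d, J (d + q) ↔ J d)
    (C : ℤ → Bool) (hC : ∀ x d, J d → ¬ (C (x + d) = C x ∧ C (x + 2 * d) = C x)) :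
    ∃ g : ℤ → Bool, (∀ x, g (x + q) = g x) ∧
      ∀ x d, J d → ¬ (g (x + d) = g x ∧ g (x + 2 * d) = g x) := by
  classical
  have hq0 : 0 < q := hq.pos
  obtain ⟨C, hC, hmax⟩ := PER_max (q := q) (J := J) (C := C) hC
  -- (B1)
  have hb1 : ∀ a d : ℤ, J d → ¬ PerPu q C a → ¬ PerPu q C (a + 2 * d) → False := by
    intro a d hd h1 h2
    obtain ⟨C', h3, h4, h5⟩ := PER_b1 hJ hC hd h1 h2
    have h6 := PER_lt hq0 h4 h1 h5
    have h7 := hmax C' h3
    omega
  -- mixed first term: the middle class modulo q is pure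
  have hb2 : ∀ a d : ℤ, J d → ¬ PerPu q C a → ∀ l : ℤ, C (a + d + q * l) = C (a + d) := by
    intro a d hd h1 l
    by_contra hne
    apply hb1 a d hd h1
    intro hp
    have hv : ∃ l' : ℤ, C (a + d + q * l') = C (a + 2 * d) := by
      by_cases h : C (a + d) = C (a + 2 * d)
      · exact ⟨0, by simpa using h⟩
      · exact ⟨l, PER_not hne (Ne.symm h)⟩
    obtain ⟨l', hl'⟩ := hv
    obtain ⟨i, hi⟩ := PER_col h1 (C (a + 2 * d))
    refine PER_ap hJ hC hd i (l' - i) _ hi ?_ (hp _)
    have e : i + (l' - i) = l' := by ring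
    rw [e]
    exact hl'
  -- mixed last term
  have hb3 : ∀ z d : ℤ, J d → ¬ PerPu q C z → ∀ l : ℤ, C (z - d + q * l) = C (z - d) := by
    intro z d hd h1 l
    by_contra hne
    have ez : z - 2 * d + 2 * d = z := by ring
    have em : z - 2 * d + d = z - d := by ring
    have h1' : ¬ PerPu q C (z - 2 * d + 2 * d) := by rw [ez]; exact h1
    apply fun h => hb1 (z - 2 * d) d hd h h1'
    intro hp
    have hv : ∃ l' : ℤ, C (z - d + q * l') = C (z - 2 * d) := by
      by_cases h : C (z - d) = C (z - 2 * d)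
      · exact ⟨0, by simpa using h⟩
      · exact ⟨l, PER_not hne (Ne.symm h)⟩
    obtain ⟨l', hl'⟩ := hv
    obtain ⟨k, hk⟩ := PER_col h1 (C (z - 2 * d))
    refine PER_ap hJ hC hd (a := z - 2 * d) (l' - k) k _ (hp _) ?_ ?_
    · have e : l' - k + k = l' := by ring
      rw [e, em]
      exact hl'
    · rw [ez]
      exact hk
  -- the new colouring
  obtain ⟨g0, hg0⟩ : ∃ g0 : ℤ → Bool, ∀ x, g0 x = if PerPu q C x then C x else true :=
    ⟨fun x => if PerPu q C x then C x else true, fun _ => rfl⟩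
  have hgp : ∀ x, PerPu q C x → g0 x = C x := fun x h => by rw [hg0, if_pos h]
  have hper : ∀ x k : ℤ, g0 (x + 2 * q * k) = g0 x := by
    intro x k
    rw [hg0, hg0]
    by_cases h : PerPu q C x
    · rw [if_pos h, if_pos (PER_shift k h), h]
    · have h' : ¬ PerPu q C (x + 2 * q * k) := by
        intro h2
        apply h
        have h3 := PER_shift (-k) h2
        have e : x + 2 * q * k + 2 * q * (-k) = x := by ring
        rw [e] at h3
        exact h3
      rw [if_neg h, if_neg h']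
  have hav : PerAv J g0 := by
    rintro n d hd ⟨h1, h2⟩
    by_cases hn : PerPu q C n
    · by_cases hz : PerPu q C (n + 2 * d)
      · by_cases hm : PerPu q C (n + d)
        · apply hC n d hd
          rw [hgp _ hn, hgp _ hm] at h1
          rw [hgp _ hn, hgp _ hz] at h2
          exact ⟨h1, h2⟩
        · -- middle mixed
          rw [hgp _ hn, hgp _ hz] at h2
          obtain ⟨i, hi⟩ := PER_col hm (C n)
          refine PER_ap hJ hC hd (a := n) i i (C n) (hn i) ?_ ?_
          · have e : n + d + q * (i + i) = n + d + 2 * q * i := by ring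
            rw [e]
            exact hi
          · rw [hz i]
            exact h2
      · -- last mixed
        have h3 := hb3 (n + 2 * d) d hd hz
        have em : n + 2 * d - d = n + d := by ring
        rw [em] at h3
        have hm : PerPu q C (n + d) := by
          intro i
          have h4 := h3 (2 * i)
          have e : n + d + 2 * q * i = n + d + q * (2 * i) := by ring
          rw [e]
          exact h4
        rw [hgp _ hn, hgp _ hm] at h1
        obtain ⟨k, hk⟩ := PER_col hz (C (n + d))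
        refine PER_ap hJ hC hd (a := n) 0 k (C (n + d)) ?_ (h3 _) hk
        rw [h1]
        simp
    · -- first mixed
      have h3 := hb2 n d hd hn
      have hm : PerPu q C (n + d) := by
        intro i
        have h4 := h3 (2 * i)
        have e : n + d + 2 * q * i = n + d + q * (2 * i) := by ring
        rw [e]
        exact h4
      obtain ⟨i, hi⟩ := PER_col hn (C (n + d))
      have hz1 : ∀ k : ℤ, C (n + 2 * d + 2 * q * k) ≠ C (n + d) := fun k h =>
        PER_ap hJ hC hd (a := n) i k (C (n + d)) hi (h3 _) h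
      have hz0 : C (n + 2 * d) ≠ C (n + d) := by
        have h := hz1 0
        simpa using h
      have hz : PerPu q C (n + 2 * d) := fun k => PER_not (hz1 k) hz0
      apply hz0
      rw [hgp _ hz] at h2
      rw [hgp _ hm] at h1
      rw [h2, h1]
  obtain ⟨r, hr⟩ := hq
  refine ⟨fun x => g0 ((q + 1) * x), ?_, ?_⟩
  · intro x
    have e : ((q : ℤ) + 1) * (x + q) = (q + 1) * x + 2 * q * (r + 1) := by
      have : (q : ℤ) = 2 * r + 1 := by exact_mod_cast hr
      have e2 : (q : ℤ) + 1 = 2 * (r + 1) := by rw [this]; ring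
      calc ((q : ℤ) + 1) * (x + q) = (q + 1) * x + q * (q + 1) := by ring
        _ = (q + 1) * x + q * (2 * (r + 1)) := by rw [← e2]
        _ = (q + 1) * x + 2 * q * (r + 1) := by ring
    show g0 ((q + 1) * (x + q)) = g0 ((q + 1) * x)
    rw [e, hper]
  · intro x d hd
    have hd' : J ((q + 1) * d) := by
      have e : ((q : ℤ) + 1) * d = d + q * d := by ring
      rw [e]
      exact (PER_J hJ d d).2 hd
    have h := hav ((q + 1) * x) _ hd'
    have e1 : ((q : ℤ) + 1) * (x + d) = (q + 1) * x + (q + 1) * d := by ring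
    have e2 : ((q : ℤ) + 1) * (x + 2 * d) = (q + 1) * x + 2 * ((q + 1) * d) := by ring
    show ¬ (g0 ((q + 1) * (x + d)) = g0 ((q + 1) * x) ∧
      g0 ((q + 1) * (x + 2 * d)) = g0 ((q + 1) * x))
    rw [e1, e2]
    exact h

end Pool.Agent.WND
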