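import Pool.Agent.WND.Defs

/-!
# WND, row VDW: a finite window from van der Waerden's theorem
-/

set_option autoImplicit false

open Finset

namespace Pool.Agent.WND

/-- multiples of a small step come close to every target -/
theorem vdw_exists_step (δ η t : ℝ) (hδ : 0 < |δ|) (hδη : |δ| < η) (hδ1 : |δ| ≤ 1) (N : ℕ) :
    ∃ i : ℕ, N ≤ i ∧ ∃ m : ℤ, |i * δ - t - m| < η := by
  have key : ∀ δ t : ℝ, 0 < δ → δ < η → δ ≤ 1 → ∃ i : ℕ, N ≤ i ∧ ∃ m : ℤ, |i * δ - t - m| < η := by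
    intro δ t h0 h1 h2
    obtain ⟨M, hM⟩ := exists_nat_ge (N + |t|)
    have ht : (N : ℝ) ≤ t + M := by
      have := neg_abs_le t
      linarith
    have hN : (N : ℝ) ≤ (t + M) / δ := by
      rw [le_div_iff₀ h0]
      have : (N : ℝ) * δ ≤ N * 1 := mul_le_mul_of_nonneg_left h2 (Nat.cast_nonneg _)
      linarith
    refine ⟨⌊(t + M) / δ⌋₊, Nat.le_floor hN, M, ?_⟩
    have a1 := Nat.floor_le (le_trans (Nat.cast_nonneg N) hN)
    have a2 := Nat.lt_floor_add_one ((t + M) / δ)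
    rw [le_div_iff₀ h0] at a1
    rw [div_lt_iff₀ h0] at a2
    rw [abs_lt]
    push_cast
    constructor <;> nlinarith
  rcases lt_or_ge 0 δ with h | h
  · rw [abs_of_pos h] at hδη hδ1
    exact key δ t h hδη hδ1
  · have h' : δ < 0 := lt_of_le_of_ne h (abs_pos.1 hδ)
    rw [abs_of_neg h'] at hδη hδ1
    obtain ⟨i, hi, m, hm⟩ := key (-δ) (-t) (by linarith) hδη hδ1
    refine ⟨i, hi, -m, ?_⟩
    rw [← abs_neg]
    convert hm using 2
    push_cast
    ring

/-- multiples of an irrational number come close to every target modulo one -/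
theorem vdw_exists_multiple (α : ℝ) (hα : Irrational α) (η t : ℝ) (hη : 0 < η) (N : ℕ) :
    ∃ n : ℕ, N ≤ n ∧ ∃ m : ℤ, |α * n - t - m| < η := by
  obtain ⟨q, hq⟩ := exists_nat_gt (1 / η)
  have hq0 : (0 : ℝ) < q + 1 := by positivity
  obtain ⟨j, k, hk0, -, hk⟩ := Real.exists_int_int_abs_mul_sub_le α (Nat.succ_pos q)
  set δ : ℝ := k * α - j with hδdef
  have hδ0 : 0 < |δ| := by
    rw [abs_pos, hδdef, sub_ne_zero]
    intro h
    have := (hα.intCast_mul (ne_of_gt hk0)).ne_int j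
    exact this h
  have hq2 : 1 / ((q.succ : ℝ) + 1) < η := by
    rw [div_lt_iff₀ (by positivity)]
    rw [div_lt_iff₀ hη] at hq
    push_cast
    nlinarith
  have hδη : |δ| < η := lt_of_le_of_lt (by push_cast at hk ⊢; exact hk) hq2
  have hδ1 : |δ| ≤ 1 := by
    refine le_trans hk ?_
    rw [div_le_one (by positivity)]
    push_cast
    linarith [Nat.cast_nonneg (α := ℝ) q]
  obtain ⟨i, hi, m, hm⟩ := vdw_exists_step δ η t hδ0 hδη hδ1 N
  refine ⟨i * k.toNat, ?_, m + i * j, ?_⟩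
  · have : 1 ≤ k.toNat := by omega
    nlinarith
  · have hk' : ((k.toNat : ℕ) : ℝ) = k := by
      have : ((k.toNat : ℕ) : ℤ) = k := Int.toNat_of_nonneg hk0.le
      exact_mod_cast this
    convert hm using 2
    push_cast
    rw [hk', hδdef]
    ring

/-- a common margin for the finitely many differences of the window -/
theorem vdw_margin (s t : ℝ) (q R : ℕ) : ∃ ε : ℝ, 0 < ε ∧ ∀ d : ℤ, |d| ≤ 2 * R →
    s < Int.fract ((d : ℝ) / q) → Int.fract ((d : ℝ) / q) < t →
      s + ε ≤ Int.fract ((d : ℝ) / q) ∧ Int.fract ((d : ℝ) / q) + ε ≤ t := by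
  classical
  have key : ∀ S : Finset ℤ, ∃ ε : ℝ, 0 < ε ∧ ∀ d ∈ S,
      s < Int.fract ((d : ℝ) / q) → Int.fract ((d : ℝ) / q) < t →
        s + ε ≤ Int.fract ((d : ℝ) / q) ∧ Int.fract ((d : ℝ) / q) + ε ≤ t := by
    intro S
    induction S using Finset.induction_on with
    | empty => exact ⟨1, one_pos, by simp⟩
    | insert a S _ ih =>
      obtain ⟨ε, h0, h⟩ := ih
      by_cases ha : s < Int.fract ((a : ℝ) / q) ∧ Int.fract ((a : ℝ) / q) < t
      · refine ⟨min ε (min (Int.fract ((a : ℝ) / q) - s) (t - Int.fract ((a : ℝ) / q))), ?_, ?_⟩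
        · exact lt_min h0 (lt_min (by linarith [ha.1]) (by linarith [ha.2]))
        · intro d hd h1 h2
          have m1 := min_le_left ε
            (min (Int.fract ((a : ℝ) / q) - s) (t - Int.fract ((a : ℝ) / q)))
          have m2 := min_le_right ε
            (min (Int.fract ((a : ℝ) / q) - s) (t - Int.fract ((a : ℝ) / q)))
          have m3 := min_le_left (Int.fract ((a : ℝ) / q) - s) (t - Int.fract ((a : ℝ) / q))
          have m4 := min_le_right (Int.fract ((a : ℝ) / q) - s) (t - Int.fract ((a : ℝ) / q))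
          rcases Finset.mem_insert.1 hd with rfl | hd
          · constructor <;> linarith
          · have := h d hd h1 h2
            constructor <;> linarith [this.1, this.2]
      · refine ⟨ε, h0, ?_⟩
        intro d hd h1 h2
        rcases Finset.mem_insert.1 hd with rfl | hd
        · exact absurd ⟨h1, h2⟩ ha
        · exact h d hd h1 h2
  obtain ⟨ε, h0, h⟩ := key (Finset.Icc (-(2 * (R : ℤ))) (2 * R))
  refine ⟨ε, h0, fun d hd h1 h2 => h d ?_ h1 h2⟩
  rw [abs_le] at hd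
  rw [Finset.mem_Icc]
  exact hd

theorem window_col (α : ℝ) (hα : Irrational α) (s t : ℝ) (N : ℕ) (C : ℤ → Bool)
    (hC : ∀ (x : ℤ) (d : ℕ), N ≤ d → s < Int.fract (α * d) → Int.fract (α * d) < t →
      ¬ (C (x + d) = C x ∧ C (x + 2 * d) = C x)) (q : ℕ) (hq : 0 < q) (hs : 0 ≤ s)
    (ht : t ≤ 1) (R : ℕ) :
    ∃ C' : ℤ → Bool, ∀ x d : ℤ, |x| ≤ R → |x + d| ≤ R → |x + 2 * d| ≤ R →
      s < Int.fract ((d : ℝ) / q) → Int.fract ((d : ℝ) / q) < t →
      ¬ (C' (x + d) = C' x ∧ C' (x + 2 * d) = C' x) := by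
  classical
  obtain ⟨ε, hε, hmar⟩ := vdw_margin s t q R
  -- the step `e`
  obtain ⟨e, he, m, hm⟩ := vdw_exists_multiple α hα (ε / (2 * (2 * R + 1))) (1 / q)
    (by positivity) 1
  -- the cells
  obtain ⟨K, hK⟩ := exists_nat_gt (2 / ε)
  have hK0 : (0 : ℝ) < K := lt_trans (by positivity) hK
  have hKε : 1 / (K : ℝ) < ε / 2 := by
    rw [div_lt_iff₀ hε] at hK
    rw [div_lt_iff₀ hK0]
    nlinarith
  set g0 : ℕ := N + 2 * R * e + 1 with hg0
  -- the colouring of the natural numbers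
  let col : ℕ → (Finset.Icc (-(R : ℤ)) R → Bool) × Fin K := fun σ =>
    (fun n => C (e * (n : ℤ) + g0 * σ),
      ⟨⌊(K : ℝ) * Int.fract (α * (g0 * σ : ℕ))⌋₊, by
        have h1 := Int.fract_lt_one (α * (g0 * σ : ℕ))
        have h0 := Int.fract_nonneg (α * (g0 * σ : ℕ))
        rw [Nat.floor_lt (by positivity)]
        nlinarith⟩)
  obtain ⟨A, hA, b, c, hc⟩ := Combinatorics.exists_mono_homothetic_copy ({0, 1, 2} : Finset ℕ) col
  have c0 : col b = c := by simpa using hc 0 (by simp)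
  have c1 : col (A + b) = c := by simpa using hc 1 (by simp)
  have c2 : col (A * 2 + b) = c := by simpa using hc 2 (by simp)
  have p1 : ∀ n : ℤ, |n| ≤ R → C (e * n + g0 * (A + b : ℕ)) = C (e * n + g0 * b) := by
    intro n hn
    have hn' : n ∈ Finset.Icc (-(R : ℤ)) R := by
      rw [Finset.mem_Icc]; exact abs_le.1 hn
    have := congrFun (congrArg Prod.fst (c1.trans c0.symm)) ⟨n, hn'⟩
    exact this
  have p2 : ∀ n : ℤ, |n| ≤ R → C (e * n + g0 * (A * 2 + b : ℕ)) = C (e * n + g0 * b) := by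
    intro n hn
    have hn' : n ∈ Finset.Icc (-(R : ℤ)) R := by
      rw [Finset.mem_Icc]; exact abs_le.1 hn
    have := congrFun (congrArg Prod.fst (c2.trans c0.symm)) ⟨n, hn'⟩
    exact this
  have p3 : ∃ (z : ℤ) (θ : ℝ), α * (g0 * A : ℕ) = z + θ ∧ |θ| < 1 / K := by
    have h := congrArg Fin.val (congrArg Prod.snd (c1.trans c0.symm))
    have h' : ⌊(K : ℝ) * Int.fract (α * (g0 * (A + b) : ℕ))⌋₊ =
        ⌊(K : ℝ) * Int.fract (α * (g0 * b : ℕ))⌋₊ := h
    refine ⟨⌊α * (g0 * (A + b) : ℕ)⌋ - ⌊α * (g0 * b : ℕ)⌋,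
      Int.fract (α * (g0 * (A + b) : ℕ)) - Int.fract (α * (g0 * b : ℕ)), ?_, ?_⟩
    · simp only [Int.fract]
      push_cast
      ring
    · set u := Int.fract (α * (g0 * (A + b) : ℕ)) with hu
      set v := Int.fract (α * (g0 * b : ℕ)) with hv
      have hu0 : 0 ≤ (K : ℝ) * u := mul_nonneg hK0.le (Int.fract_nonneg _)
      have hv0 : 0 ≤ (K : ℝ) * v := mul_nonneg hK0.le (Int.fract_nonneg _)
      have a1 := Nat.floor_le hu0
      have a2 := Nat.lt_floor_add_one ((K : ℝ) * u)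
      have a3 := Nat.floor_le hv0
      have a4 := Nat.lt_floor_add_one ((K : ℝ) * v)
      rw [h'] at a1 a2
      rw [lt_div_iff₀ hK0]
      have : |u - v| * K = |K * u - K * v| := by
        rw [← mul_sub, abs_mul, Nat.abs_cast]; ring
      rw [this, abs_lt]
      constructor <;> linarith
  obtain ⟨z, θ, hz, hθ⟩ := p3
  refine ⟨fun n => C (e * n + g0 * b), ?_⟩
  intro x d hx hxd hx2 h1 h2 hmono
  obtain ⟨hm1, hm2⟩ := hmono
  simp only at hm1 hm2
  have hd : |d| ≤ 2 * R := by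
    rw [abs_le] at hx hxd ⊢
    constructor <;> linarith [hx.1, hx.2, hxd.1, hxd.2]
  have hmd := hmar d hd h1 h2
  -- the difference
  have hDpos : (N : ℤ) ≤ e * d + g0 * A := by
    have hA1 : (1 : ℤ) ≤ A := by exact_mod_cast hA
    have hd' := (abs_le.1 hd).1
    have he0 : (0 : ℤ) ≤ e := Int.natCast_nonneg e
    have e1 : -(2 * (R : ℤ) * e) ≤ e * d := by nlinarith
    have e2 : (g0 : ℤ) ≤ g0 * A := by nlinarith [Int.natCast_nonneg g0]
    have e3 : (g0 : ℤ) = N + 2 * R * e + 1 := by rw [hg0]; push_cast; ring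
    linarith
  obtain ⟨D, hD⟩ := Int.eq_ofNat_of_zero_le (le_trans (Int.natCast_nonneg N) hDpos)
  have hND : N ≤ D := by
    rw [hD] at hDpos
    exact_mod_cast hDpos
  have hDR : (D : ℝ) = e * d + g0 * A := by
    have : ((D : ℤ) : ℝ) = ((e * d + g0 * A : ℤ) : ℝ) := by rw [hD]
    push_cast at this
    exact this
  -- the rotation number of the difference
  set δ : ℝ := α * e - 1 / q - m with hδ
  have hfr : α * D = (d : ℝ) / q + ((d * m + z : ℤ) : ℝ) + (d * δ + θ) := by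
    rw [hDR]
    push_cast at hz ⊢
    have : α * (e * d + g0 * A) = d * (α * e) + α * (g0 * A) := by ring
    rw [this, hz, hδ]
    ring
  have hsmall : |(d : ℝ) * δ + θ| < ε := by
    have hdR : |(d : ℝ)| ≤ 2 * R := by exact_mod_cast hd
    have b1 : |(d : ℝ) * δ| ≤ ε / 2 := by
      rw [abs_mul]
      have hR0 : (0 : ℝ) ≤ R := Nat.cast_nonneg R
      calc |(d : ℝ)| * |δ| ≤ (2 * R) * (ε / (2 * (2 * R + 1))) :=
            mul_le_mul hdR hm.le (abs_nonneg _) (by positivity)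
        _ ≤ ε / 2 := by
            rw [mul_div_assoc', div_le_iff₀ (by positivity)]
            nlinarith
    calc |(d : ℝ) * δ + θ| ≤ |(d : ℝ) * δ| + |θ| := abs_add_le _ _
      _ < ε := by linarith
  have hfr2 : Int.fract (α * D) = Int.fract ((d : ℝ) / q) + (d * δ + θ) := by
    rw [Int.fract_eq_iff]
    rw [abs_lt] at hsmall
    refine ⟨by linarith [hsmall.1, hmd.1], by linarith [hsmall.2, hmd.2],
      ⌊(d : ℝ) / q⌋ + (d * m + z), ?_⟩
    rw [hfr]
    simp only [Int.fract]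
    push_cast
    ring
  rw [abs_lt] at hsmall
  refine hC (e * x + g0 * b) D hND (by rw [hfr2]; linarith [hsmall.1, hmd.1])
    (by rw [hfr2]; linarith [hsmall.2, hmd.2]) ⟨?_, ?_⟩
  · rw [← hm1, ← p1 (x + d) hxd]
    congr 1
    have : (D : ℤ) = e * d + g0 * A := hD.symm
    rw [this]
    push_cast
    ring
  · rw [← hm2, ← p2 (x + 2 * d) hx2]
    congr 1
    have : (D : ℤ) = e * d + g0 * A := hD.symm
    rw [this]
    push_cast
    ring

end Pool.Agent.WND
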