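import Pool.Agent.WND.Defs
import Pool.Agent.WND.Lim
import Pool.Agent.WND.Vdw

set_option autoImplicit false

open Finset

namespace Pool.Agent.WND

/-- the limit over all windows of the colourings of `window_col` -/
theorem two_sided (α : ℝ) (hα : Irrational α) (s t : ℝ) (N : ℕ) (C : ℤ → Bool)
    (hC : ∀ (x : ℤ) (d : ℕ), N ≤ d → s < Int.fract (α * d) → Int.fract (α * d) < t →
      ¬ (C (x + d) = C x ∧ C (x + 2 * d) = C x)) (q : ℕ) (hq : 0 < q) (hs : 0 ≤ s)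
    (ht : t ≤ 1) :
    ∃ C' : ℤ → Bool, ∀ x d : ℤ,
      s < Int.fract ((d : ℝ) / q) → Int.fract ((d : ℝ) / q) < t →
      ¬ (C' (x + d) = C' x ∧ C' (x + 2 * d) = C' x) := by
  choose c hc using fun R : ℕ => window_col α hα s t N C hC q hq hs ht R
  obtain ⟨C', hC', -⟩ := limit_col c
  refine ⟨C', fun x d h1 h2 h3 => ?_⟩
  obtain ⟨n, hn, hF⟩ := hC' {x, x + d, x + 2 * d} (x.natAbs + 2 * d.natAbs)
  have e0 : c n x = C' x := hF x (by simp)
  have e1 : c n (x + d) = C' (x + d) := hF (x + d) (by simp)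
  have e2 : c n (x + 2 * d) = C' (x + 2 * d) := hF (x + 2 * d) (by simp)
  refine hc n x d ?_ ?_ ?_ h1 h2 ⟨?_, ?_⟩
  · rw [abs_le]; omega
  · rw [abs_le]; omega
  · rw [abs_le]; omega
  · rw [e0, e1]; exact h3.1
  · rw [e0, e2]; exact h3.2

end Pool.Agent.WND
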