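import Pool.Agent.WND.StepC
import Pool.Agent.WND.Per
import Pool.Agent.WND.Two
import Pool.Agent.WND.Cnv
import Pool.Agent.WND.Cho

/-!
# WND: the theorem for every arc
-/

set_option autoImplicit false

open Finset

namespace Pool.Agent.WND

/-- every arc (assembly) -/
theorem every_arc (α : ℝ) (hα : Irrational α) (s t : ℝ) (hs : 0 ≤ s) (hst : s < t)
    (ht : t ≤ 1) :
    (∀ f : ℕ → ℕ, (∀ d : ℕ, 1 ≤ d → s < Int.fract (α * d) → Int.fract (α * d) < t → f d ≤ 3) →
      Admissible f) ↔
    ¬ ∃ k : ℕ, 1 ≤ k ∧ ∀ x : ℝ, s < x → x < t → 1 / 4 ≤ distInt (k * x) := by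
  constructor
  · intro h hk
    obtain ⟨f, hf, hn⟩ := converse α hα s t hk
    exact hn (h f hf)
  · intro hk f hf C
    by_contra hcon
    push Not at hcon
    have hfin : ∀ b : Bool, {d : ℕ | 1 ≤ d ∧ HasAP C b d (f d)}.Finite := by
      intro b
      exact hcon b
    obtain ⟨N, hN⟩ : ∃ N : ℕ, ∀ b d, N ≤ d → 1 ≤ d → ¬ HasAP C b d (f d) := by
      obtain ⟨N1, h1⟩ := (hfin true).bddAbove
      obtain ⟨N2, h2⟩ := (hfin false).bddAbove
      refine ⟨N1 + N2 + 1, fun b d hd hd1 hA => ?_⟩
      cases b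
      · have := h2 ⟨hd1, hA⟩
        omega
      · have := h1 ⟨hd1, hA⟩
        omega
    have hC : ∀ (x : ℤ) (d : ℕ), N + 1 ≤ d → s < Int.fract (α * d) → Int.fract (α * d) < t →
        ¬ (C (x + d) = C x ∧ C (x + 2 * d) = C x) := by
      rintro x d hd h1 h2 ⟨e1, e2⟩
      have h3 := hf d (by omega) h1 h2
      refine hN (C x) d (by omega) (by omega) ⟨x, fun i hi => ?_⟩
      have hi3 : i < 3 := by omega
      interval_cases i
      · simp
      · simpa using e1
      · simpa using e2
    obtain ⟨M, q, a, b, hM, hqo, hq, ha, hb, hsa, hbt, hab, hbad⟩ := choose_q s t hs hst ht hk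
    have hq0 : 0 < q := by
      have : 0 < 1000 * M ^ 4 := by positivity
      omega
    obtain ⟨C1, hC1⟩ := two_sided α hα s t (N + 1) C hC q hq0 hs ht
    obtain ⟨g, hg1, hg2⟩ := periodic q hqo
      (fun d => s < Int.fract ((d : ℝ) / q) ∧ Int.fract ((d : ℝ) / q) < t) (by
        intro d
        have hq' : (q : ℝ) ≠ 0 := by exact_mod_cast hq0.ne'
        have : (((d + q : ℤ) : ℝ)) / q = (d : ℝ) / q + 1 := by
          push_cast
          field_simp
        simp only [this, Int.fract_add_one]) C1 (fun x d h => hC1 x d h.1 h.2)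
    set F : ℤ → ℤ := fun x => if g x then 1 else -1 with hF
    have hval : ∀ x y, F x = F y → g x = g y := by
      intro x y h
      simp only [hF] at h
      cases hx : g x <;> cases hy : g y <;> simp [hx, hy] at h ⊢
    have hPm : Pm F := by
      intro x
      simp only [hF]
      cases g x <;> simp
    have hPer : Per F q := by
      intro x
      simp only [hF, hg1]
    have hAv : Av F a b := by
      rintro x d h1 h2 ⟨e1, e2⟩
      have hqR : (0 : ℝ) < q := by exact_mod_cast hq0
      have hd1 : s < (d : ℝ) / q := by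
        rw [lt_div_iff₀ hqR]
        have : (a : ℝ) ≤ d := by exact_mod_cast h1
        linarith
      have hd2 : (d : ℝ) / q < t := by
        rw [div_lt_iff₀ hqR]
        have : (d : ℝ) ≤ b := by exact_mod_cast h2
        linarith
      have hfr : Int.fract ((d : ℝ) / q) = (d : ℝ) / q := by
        rw [Int.fract_eq_self]
        constructor <;> linarith
      exact hg2 x d ⟨by rw [hfr]; exact hd1, by rw [hfr]; exact hd2⟩
        ⟨hval _ _ e1, hval _ _ e2⟩
    obtain ⟨k, hk1, hk2, hk3⟩ := step_c hPm hPer hAv ha hM hq hab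
    obtain ⟨d, hd1, hd2, n, hn⟩ := hbad k hk1 hk2
    have := hk3 d hd1 hd2 n
    omega

end Pool.Agent.WND
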