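import Pool.Agent.WND.Defs

/-!
# WND, row ARI: pure arithmetic
-/

set_option autoImplicit false

namespace Pool.Agent.WND

private lemma Ari_ratio {q M L p L1 p1 d : ℤ} (hM : 2 ≤ M) (hq : 1000 * M ^ 4 ≤ q)
    (hL : 0 < L) (hLM : L ≤ M) (hL1 : 0 < L1) (hLM1 : L1 ≤ M)
    (h : |L1 * d - p1 * q| ≤ 2 * M * L1) (h' : |L * d - p * q| ≤ (3 * M + 1) * L) :
    p1 * L = p * L1 := by
  by_contra hne
  have hLL : L * L1 ≤ M * M := mul_le_mul hLM hLM1 hL1.le (by omega)
  have hLL0 : 0 < L * L1 := mul_pos hL hL1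
  have e : q * (p1 * L - p * L1) = L1 * (L * d - p * q) - L * (L1 * d - p1 * q) := by ring
  have h1 : |q * (p1 * L - p * L1)| ≤ (5 * M + 1) * (L * L1) := by
    rw [e]
    calc |L1 * (L * d - p * q) - L * (L1 * d - p1 * q)|
        ≤ |L1 * (L * d - p * q)| + |L * (L1 * d - p1 * q)| := abs_sub _ _
      _ = L1 * |L * d - p * q| + L * |L1 * d - p1 * q| := by
          rw [abs_mul, abs_mul, abs_of_pos hL, abs_of_pos hL1]
      _ ≤ L1 * ((3 * M + 1) * L) + L * (2 * M * L1) := by
          have a1 := mul_le_mul_of_nonneg_left h' hL1.le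
          have a2 := mul_le_mul_of_nonneg_left h hL.le
          linarith
      _ = (5 * M + 1) * (L * L1) := by ring
  have h2 : (5 * M + 1) * (L * L1) ≤ (5 * M + 1) * (M * M) :=
    mul_le_mul_of_nonneg_left hLL (by omega)
  have hM4 : (5 * M + 1) * (M * M) < 1000 * M ^ 4 := by
    have hMM : 0 < M * M := by positivity
    have : 5 * M + 1 < 1000 * (M * M) := by nlinarith
    have h3 := mul_lt_mul_of_pos_right this hMM
    calc (5 * M + 1) * (M * M) < 1000 * (M * M) * (M * M) := h3
      _ = 1000 * M ^ 4 := by ring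
  have hq0 : 0 < q := by
    have : 0 < M ^ 4 := by positivity
    linarith
  have h3 : q ≤ |q * (p1 * L - p * L1)| := by
    rw [abs_mul, abs_of_pos hq0]
    have : 1 ≤ |p1 * L - p * L1| := Int.one_le_abs (sub_ne_zero.mpr hne)
    nlinarith
  linarith

/-- the two levels next to the centre of a vortex -/
private lemma Ari_side {q M : ℤ} (c : ℤ → ℤ) (V : ℤ → Prop) (A0 B0 : ℤ) (hM : 2 ≤ M)
    (hq : 1000 * M ^ 4 ≤ q)
    (h3 : ∀ d, A0 - 1 ≤ d → d ≤ B0 + 1 → -q ≤ c d ∧ c d ≤ 0)
    (h5 : ∀ d0, A0 ≤ d0 → d0 ≤ B0 → V d0 →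
      ∃ L p : ℤ, 0 < L ∧ L ≤ M ∧ |L * d0 - p * q| ≤ 2 * M * L ∧
        ∀ d, A0 ≤ d → d ≤ B0 → ¬ V d → |L * d - p * q| ≤ (3 * M + 2) * L →
          ∃ W j : ℤ, 4 * W = c d - c (d + 1) ∧ 4 * W * d = 4 * j * q + q - c d ∧
            2 * W * p = L * (2 * j + 1))
    (d0 : ℤ) (ha : A0 + 10 * M ≤ d0) (hb : d0 ≤ B0 - 10 * M) (hV : V d0) :
    ∃ L p dm dp Wm Wp jm jp : ℤ, 0 < L ∧ L ≤ M ∧ |L * d0 - p * q| ≤ 2 * M * L ∧
      A0 ≤ dm ∧ dm < d0 ∧ d0 < dp ∧ dp ≤ B0 ∧
      3 * M * L ≤ p * q - L * dm ∧ p * q - L * dm ≤ (3 * M + 1) * L ∧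
      3 * M * L < L * dp - p * q ∧ L * dp - p * q ≤ (3 * M + 1) * L ∧
      1 ≤ Wm ∧ 4 * Wm = c dm - c (dm + 1) ∧ 4 * Wm * (p * q - L * dm) = L * (q + c dm) ∧
      2 * Wm * p = L * (2 * jm + 1) ∧
      Wp ≤ -1 ∧ 4 * Wp = c dp - c (dp + 1) ∧ 4 * Wp * (p * q - L * dp) = L * (q + c dp) ∧
      2 * Wp * p = L * (2 * jp + 1) := by
  obtain ⟨L, p, hL, hLM, hd0, hall⟩ := h5 d0 (by omega) (by omega) hV
  have hr0 := Int.emod_nonneg (p * q) hL.ne'
  have hr1 := Int.emod_lt_of_pos (p * q) hL
  have hr2 := Int.mul_ediv_add_emod (p * q) L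
  set F := (p * q) / L with hF
  set r := (p * q) % L with hr
  have hMLpos : 0 < M * L := by positivity
  have hd0' := abs_le.mp hd0
  -- F is close to d0
  have hF1 : d0 - 2 * M - 1 < F := by
    have : L * (d0 - 2 * M - 1) < L * F := by nlinarith [hd0'.2]
    exact lt_of_mul_lt_mul_left this hL.le
  have hF2 : F ≤ d0 + 2 * M := by
    have : L * F ≤ L * (d0 + 2 * M) := by nlinarith [hd0'.1]
    exact le_of_mul_le_mul_left this hL
  -- the values at dm, dp
  have em : p * q - L * (F - 3 * M) = 3 * M * L + r := by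
    rw [← hr2]; ring
  have ep : L * (F + 3 * M + 1) - p * q = 3 * M * L + L - r := by
    rw [← hr2]; ring
  have hnV : ∀ d, A0 ≤ d → d ≤ B0 → |L * d - p * q| ≤ (3 * M + 1) * L →
      3 * M * L ≤ |L * d - p * q| → ¬ V d := by
    intro d hda hdb hd1 hd2 hVd
    obtain ⟨L1, p1, hL1, hLM1, hdd, -⟩ := h5 d hda hdb hVd
    have hrat := Ari_ratio hM hq hL hLM hL1 hLM1 hdd hd1
    have e : L1 * (L * d - p * q) = L * (L1 * d - p1 * q) := by
      have : L1 * (L * d - p * q) - L * (L1 * d - p1 * q) = q * (p1 * L - p * L1) := by ring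
      rw [hrat] at this
      linarith [this, sub_self (p * L1), mul_zero q]
    have e2 : L1 * |L * d - p * q| = L * |L1 * d - p1 * q| := by
      have := congrArg abs e
      rwa [abs_mul, abs_mul, abs_of_pos hL, abs_of_pos hL1] at this
    have a1 := mul_le_mul_of_nonneg_left hd2 hL1.le
    have a2 := mul_le_mul_of_nonneg_left hdd hL.le
    have hpos : 0 < M * L * L1 := by positivity
    nlinarith
  have gen : ∀ d, A0 ≤ d → d ≤ B0 → |L * d - p * q| ≤ (3 * M + 1) * L →
      3 * M * L ≤ |L * d - p * q| →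
      ∃ W j : ℤ, 4 * W = c d - c (d + 1) ∧ 4 * W * (p * q - L * d) = L * (q + c d) ∧
        2 * W * p = L * (2 * j + 1) ∧ W ≠ 0 := by
    intro d hda hdb hd1 hd2
    obtain ⟨W, j, e1, e2, e3⟩ := hall d hda hdb (hnV d hda hdb hd1 hd2) (by nlinarith)
    refine ⟨W, j, e1, ?_, e3, ?_⟩
    · have : 4 * W * (p * q - L * d) = 2 * q * (2 * W * p) - L * (4 * W * d) := by ring
      rw [this, e2, e3]; ring
    · rintro rfl
      have : L * (2 * j + 1) = 0 := by rw [← e3]; ring
      rcases mul_eq_zero.mp this with h | h <;> omega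
  have hAdm : A0 ≤ F - 3 * M := by omega
  have hBdm : F - 3 * M ≤ B0 := by omega
  have hAdp : A0 ≤ F + 3 * M + 1 := by omega
  have hBdp : F + 3 * M + 1 ≤ B0 := by omega
  have am : |L * (F - 3 * M) - p * q| = 3 * M * L + r := by
    rw [abs_sub_comm, em, abs_of_nonneg (by nlinarith)]
  have ap : |L * (F + 3 * M + 1) - p * q| = 3 * M * L + L - r := by
    rw [ep, abs_of_nonneg (by nlinarith)]
  obtain ⟨Wm, jm, m1, m2, m3, m4⟩ := gen (F - 3 * M) hAdm hBdm (by rw [am]; linarith)
    (by rw [am]; linarith)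
  obtain ⟨Wp, jp, p1, p2, p3, p4⟩ := gen (F + 3 * M + 1) hAdp hBdp (by rw [ap]; linarith)
    (by rw [ap]; linarith)
  refine ⟨L, p, F - 3 * M, F + 3 * M + 1, Wm, Wp, jm, jp, hL, hLM, hd0, hAdm, by omega, by omega, hBdp,
    by linarith, by linarith, by linarith, by linarith, ?_, m1, m2, m3, ?_, p1, p2, p3⟩
  · by_contra hc
    have hc' : Wm ≤ -1 := by omega
    have hcm := (h3 (F - 3 * M) (by omega) (by omega)).1
    have hR : 0 ≤ L * (q + c (F - 3 * M)) := mul_nonneg hL.le (by linarith)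
    rw [← m2, em] at hR
    nlinarith
  · by_contra hc
    have hc' : 1 ≤ Wp := by omega
    have hcp := (h3 (F + 3 * M + 1) (by omega) (by omega)).1
    have hR : 0 ≤ L * (q + c (F + 3 * M + 1)) := mul_nonneg hL.le (by linarith)
    have e4 : p * q - L * (F + 3 * M + 1) = -(3 * M * L + L - r) := by linarith
    rw [← p2, e4] at hR
    nlinarith

private lemma Ari_mono (c : ℤ → ℤ) (A0 B0 : ℤ)
    (h1 : ∀ d, A0 ≤ d → d ≤ B0 → 2 * c d ≤ c (d + 1) + c (d - 1)) {e : ℤ} (he : A0 ≤ e) :
    ∀ d, e ≤ d → d ≤ B0 → c d - c (d + 1) ≤ c e - c (e + 1) := by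
  intro d hd
  induction d, hd using Int.le_induction with
  | base => intro _; exact le_refl _
  | succ n hn ih =>
    intro hb
    have a := ih (by omega)
    have b := h1 (n + 1) (by omega) hb
    have : n + 1 - 1 = n := by ring
    rw [this] at b
    linarith

private lemma Ari_half {q L p k J d n : ℤ} (hL : 0 < L) (hq : 0 < q)
    (h1 : 2 * k * p = L * (2 * J + 1)) (h2 : |4 * k * (p * q - L * d)| ≤ L * q) :
    q ≤ 4 * |k * d - n * q| := by
  have e : L * (4 * (k * d - n * q)) = 2 * L * q * (2 * (J - n) + 1)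
      - 4 * k * (p * q - L * d) := by
    have : 4 * k * (p * q - L * d) = 2 * q * (2 * k * p) - L * (4 * k * d) := by ring
    rw [this, h1]; ring
  have h3 := abs_le.mp h2
  have h4 : L * q ≤ |L * (4 * (k * d - n * q))| := by
    rw [e]
    rcases le_or_gt 0 (J - n) with hJ | hJ
    · have hp : 0 ≤ L * q * (J - n) := mul_nonneg (mul_nonneg hL.le hq.le) hJ
      refine le_trans ?_ (le_abs_self _)
      nlinarith
    · have hp : 0 ≤ L * q * (-(J - n) - 1) := mul_nonneg (mul_nonneg hL.le hq.le) (by omega)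
      refine le_trans ?_ (neg_le_abs _)
      nlinarith
  rw [abs_mul, abs_of_pos hL, abs_mul] at h4
  have h5 := le_of_mul_le_mul_left h4 hL
  simpa using h5

theorem arith {q M : ℤ} (c : ℤ → ℤ) (V : ℤ → Prop) (A0 B0 : ℤ) (hM : 2 ≤ M)
    (hq : 1000 * M ^ 4 ≤ q) (hAB : A0 + 100 * M ≤ B0)
    (h1 : ∀ d, A0 ≤ d → d ≤ B0 → 2 * c d ≤ c (d + 1) + c (d - 1))
    (h2 : ∀ d, A0 ≤ d → d ≤ B0 → ¬ V d → c (d + 1) + c (d - 1) = 2 * c d)
    (h3 : ∀ d, A0 - 1 ≤ d → d ≤ B0 + 1 → -q ≤ c d ∧ c d ≤ 0)
    (h4 : ∀ d, A0 ≤ d → d ≤ B0 → ¬ V d →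
      ∃ W j : ℤ, 4 * W = c d - c (d + 1) ∧ 4 * W * d = 4 * j * q + q - c d)
    (h5 : ∀ d0, A0 ≤ d0 → d0 ≤ B0 → V d0 →
      ∃ L p : ℤ, 0 < L ∧ L ≤ M ∧ |L * d0 - p * q| ≤ 2 * M * L ∧
        ∀ d, A0 ≤ d → d ≤ B0 → ¬ V d → |L * d - p * q| ≤ (3 * M + 2) * L →
          ∃ W j : ℤ, 4 * W = c d - c (d + 1) ∧ 4 * W * d = 4 * j * q + q - c d ∧
            2 * W * p = L * (2 * j + 1)) :
    ∃ k : ℤ, 1 ≤ k ∧ 2 * k * ((B0 - 10 * M) - (A0 + 10 * M)) ≤ q ∧
      ∀ d, A0 + 10 * M ≤ d → d ≤ B0 - 10 * M → ∀ n : ℤ, q ≤ 4 * |k * d - n * q| := by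
  have hq0 : 0 < q := by
    have : 0 < M ^ 4 := by positivity
    linarith
  by_cases hV : ∃ d0, A0 + 10 * M ≤ d0 ∧ d0 ≤ B0 - 10 * M ∧ V d0
  · obtain ⟨d0, hd0a, hd0b, hVd0⟩ := hV
    obtain ⟨L, p, dm, dp, Wm, Wp, jm, jp, hL, hLM, hd0, hAm, hmd, hdp, hBp, m1, m2, p1, p2, wm1, wm2,
      wm3, wm4, wp1, wp2, wp3, wp4⟩ := Ari_side c V A0 B0 hM hq h3 h5 d0 hd0a hd0b hVd0
    have hM2 : 0 < M * M := by positivity
    have hbig : (6 * M + 2) * (M * M) < q := by
      have : 6 * M + 2 < 1000 * (M * M) := by nlinarith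
      have h := mul_lt_mul_of_pos_right this hM2
      calc (6 * M + 2) * (M * M) < 1000 * (M * M) * (M * M) := h
        _ = 1000 * M ^ 4 := by ring
        _ ≤ q := hq
    -- no vortex on the left of dm
    have hnoL : ∀ d1, A0 + 10 * M ≤ d1 → d1 ≤ dm → ¬ V d1 := by
      intro d1 hd1 hd1m hV1
      obtain ⟨L1, r1, dm1, dp1, Wm1, Wp1, jm1, jp1, hL1, hLM1, hd01, hAm1, hmd1, hdp1, hBp1, mm1, mm2,
        pp1, pp2, xm1, xm2, xm3, xm4, xp1, xp2, xp3, xp4⟩ :=
        Ari_side c V A0 B0 hM hq h3 h5 d1 hd1 (by omega) hV1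
      have hLL : L * L1 ≤ M * M := mul_le_mul hLM hLM1 hL1.le (by omega)
      have hLL0 : 0 < L * L1 := mul_pos hL hL1
      have hb1 := (abs_le.mp hd01).1
      have hlt : r1 * L < p * L1 := by
        have u1 : L * d1 ≤ L * dm := mul_le_mul_of_nonneg_left hd1m hL.le
        have u2 : L1 * (L * d1) ≤ L1 * (p * q - 3 * M * L) :=
          mul_le_mul_of_nonneg_left (by linarith) hL1.le
        have u3 : L * (r1 * q) ≤ L * (L1 * d1 + 2 * M * L1) :=
          mul_le_mul_of_nonneg_left (by linarith) hL.le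
        have u4 : 0 < M * (L * L1) := by positivity
        have u5 : (r1 * L) * q < (p * L1) * q := by nlinarith
        exact lt_of_mul_lt_mul_right u5 hq0.le
      have hone : q ≤ q * (p * L1 - r1 * L) := by nlinarith
      have hdd : dp1 < dm := by
        have v1 : L * (L1 * dp1) ≤ L * (r1 * q + (3 * M + 1) * L1) :=
          mul_le_mul_of_nonneg_left (by linarith) hL.le
        have v2 : L1 * (p * q - (3 * M + 1) * L) ≤ L1 * (L * dm) :=
          mul_le_mul_of_nonneg_left (by linarith) hL1.le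
        have v3 : (6 * M + 2) * (L * L1) ≤ (6 * M + 2) * (M * M) :=
          mul_le_mul_of_nonneg_left hLL (by omega)
        have v4 : (L * L1) * dp1 < (L * L1) * dm := by nlinarith
        exact lt_of_mul_lt_mul_left v4 hLL0.le
      have hmon := Ari_mono c A0 B0 h1 (e := dp1) (by omega) dm hdd.le (by omega)
      linarith
    have hnoR : ∀ d1, dp ≤ d1 → d1 ≤ B0 - 10 * M → ¬ V d1 := by
      intro d1 hd1p hd1 hV1
      obtain ⟨L1, r1, dm1, dp1, Wm1, Wp1, jm1, jp1, hL1, hLM1, hd01, hAm1, hmd1, hdp1, hBp1, mm1, mm2,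
        pp1, pp2, xm1, xm2, xm3, xm4, xp1, xp2, xp3, xp4⟩ :=
        Ari_side c V A0 B0 hM hq h3 h5 d1 (by omega) hd1 hV1
      have hLL : L * L1 ≤ M * M := mul_le_mul hLM hLM1 hL1.le (by omega)
      have hLL0 : 0 < L * L1 := mul_pos hL hL1
      have hb1 := (abs_le.mp hd01).2
      have hlt : p * L1 < r1 * L := by
        have u1 : L * dp ≤ L * d1 := mul_le_mul_of_nonneg_left hd1p hL.le
        have u2 : L1 * (p * q + 3 * M * L) ≤ L1 * (L * d1) :=
          mul_le_mul_of_nonneg_left (by linarith) hL1.le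
        have u3 : L * (L1 * d1 - 2 * M * L1) ≤ L * (r1 * q) :=
          mul_le_mul_of_nonneg_left (by linarith) hL.le
        have u4 : 0 < M * (L * L1) := by positivity
        have u5 : (p * L1) * q < (r1 * L) * q := by nlinarith
        exact lt_of_mul_lt_mul_right u5 hq0.le
      have hone : q ≤ q * (r1 * L - p * L1) := by nlinarith
      have hdd : dp < dm1 := by
        have v1 : L1 * (L * dp) ≤ L1 * (p * q + (3 * M + 1) * L) :=
          mul_le_mul_of_nonneg_left (by linarith) hL1.le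
        have v2 : L * (r1 * q - (3 * M + 1) * L1) ≤ L * (L1 * dm1) :=
          mul_le_mul_of_nonneg_left (by linarith) hL.le
        have v3 : (6 * M + 2) * (L * L1) ≤ (6 * M + 2) * (M * M) :=
          mul_le_mul_of_nonneg_left hLL (by omega)
        have v4 : (L * L1) * dp < (L * L1) * dm1 := by nlinarith
        exact lt_of_mul_lt_mul_left v4 hLL0.le
      have hmon := Ari_mono c A0 B0 h1 (e := dp) (by omega) dm1 hdd.le (by omega)
      linarith
    -- linearity on the left
    have linL : ∀ n : ℕ, A0 + 10 * M ≤ dm - n →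
        c (dm - n) - c (dm - n + 1) = 4 * Wm ∧ c (dm - n) = c dm + 4 * Wm * n := by
      intro n
      induction n with
      | zero => intro _; simp; linarith
      | succ n ih =>
        intro hn
        push_cast at hn ⊢
        obtain ⟨i1, i2⟩ := ih (by omega)
        have hh := h2 (dm - n) (by omega) (by omega) (hnoL (dm - n) (by omega) (by omega))
        have e1 : dm - (n + 1) = dm - n - 1 := by ring
        have e2 : dm - (n + 1) + 1 = dm - (n : ℤ) := by ring
        rw [e2, e1]
        constructor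
        · linarith
        · nlinarith
    have linR : ∀ n : ℕ, dp + n ≤ B0 - 10 * M →
        c (dp + n) - c (dp + n + 1) = 4 * Wp ∧ c (dp + n) = c dp - 4 * Wp * n := by
      intro n
      induction n with
      | zero => intro _; simp; linarith
      | succ n ih =>
        intro hn
        push_cast at hn ⊢
        obtain ⟨i1, i2⟩ := ih (by omega)
        have hh := h2 (dp + n + 1) (by omega) (by omega) (hnoR (dp + n + 1) (by omega) (by omega))
        have e1 : dp + (n + 1 : ℤ) = dp + n + 1 := by ring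
        have e2 : dp + (n : ℤ) + 1 - 1 = dp + n := by ring
        rw [e2] at hh
        rw [e1]
        constructor
        · linarith
        · nlinarith
    -- the bound for all d in the range
    have bL : ∀ d, A0 + 10 * M ≤ d → d ≤ B0 - 10 * M → 4 * Wm * (p * q - L * d) ≤ L * q := by
      intro d hda hdb
      rcases le_or_gt d dm with h | h
      · obtain ⟨n, hn⟩ := Int.eq_ofNat_of_zero_le (sub_nonneg.mpr h)
        have hdn : d = dm - n := by linarith
        obtain ⟨-, i2⟩ := linL n (by omega)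
        have hc := (h3 d (by omega) (by omega)).2
        rw [hdn] at hc ⊢
        have : 4 * Wm * (p * q - L * (dm - n)) = 4 * Wm * (p * q - L * dm) + L * (4 * Wm * n) := by
          ring
        rw [this, wm3]
        have : L * (q + c dm) + L * (4 * Wm * n) = L * q + L * c (dm - n) := by rw [i2]; ring
        rw [this]
        nlinarith
      · have hc := (h3 dm (by omega) (by omega)).2
        have u : 4 * Wm * (p * q - L * d) ≤ 4 * Wm * (p * q - L * dm) := by
          apply mul_le_mul_of_nonneg_left _ (by linarith)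
          have := mul_le_mul_of_nonneg_left h.le hL.le
          linarith
        rw [wm3] at u
        nlinarith
    have bR : ∀ d, A0 + 10 * M ≤ d → d ≤ B0 - 10 * M → 4 * (-Wp) * (L * d - p * q) ≤ L * q := by
      intro d hda hdb
      rcases le_or_gt dp d with h | h
      · obtain ⟨n, hn⟩ := Int.eq_ofNat_of_zero_le (sub_nonneg.mpr h)
        have hdn : d = dp + n := by linarith
        obtain ⟨-, i2⟩ := linR n (by omega)
        have hc := (h3 d (by omega) (by omega)).2
        rw [hdn] at hc ⊢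
        have : 4 * (-Wp) * (L * (dp + n) - p * q)
            = 4 * Wp * (p * q - L * dp) - L * (4 * Wp * n) := by ring
        rw [this, wp3]
        have : L * (q + c dp) - L * (4 * Wp * n) = L * q + L * c (dp + n) := by rw [i2]; ring
        rw [this]
        nlinarith
      · have hc := (h3 dp (by omega) (by omega)).2
        have u : 4 * (-Wp) * (L * d - p * q) ≤ 4 * (-Wp) * (L * dp - p * q) := by
          apply mul_le_mul_of_nonneg_left _ (by linarith)
          have := mul_le_mul_of_nonneg_left h.le hL.le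
          linarith
        have e : 4 * (-Wp) * (L * dp - p * q) = 4 * Wp * (p * q - L * dp) := by ring
        rw [e, wp3] at u
        nlinarith
    have hLq : 0 < L * q := mul_pos hL hq0
    -- a multiplier at most both
    have key : ∀ k J : ℤ, 1 ≤ k → k ≤ Wm → k ≤ -Wp → 2 * k * p = L * (2 * J + 1) →
        ∃ k : ℤ, 1 ≤ k ∧ 2 * k * ((B0 - 10 * M) - (A0 + 10 * M)) ≤ q ∧
          ∀ d, A0 + 10 * M ≤ d → d ≤ B0 - 10 * M → ∀ n : ℤ, q ≤ 4 * |k * d - n * q| := by
      intro k J hk hk1 hk2 hJ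
      have cL : ∀ d, A0 + 10 * M ≤ d → d ≤ B0 - 10 * M → 4 * k * (p * q - L * d) ≤ L * q := by
        intro d hda hdb
        rcases le_or_gt 0 (p * q - L * d) with h | h
        · have := bL d hda hdb
          have h' : 4 * k * (p * q - L * d) ≤ 4 * Wm * (p * q - L * d) :=
            mul_le_mul_of_nonneg_right (by linarith) h
          linarith
        · have : 4 * k * (p * q - L * d) ≤ 0 := by nlinarith
          linarith
      have cR : ∀ d, A0 + 10 * M ≤ d → d ≤ B0 - 10 * M → 4 * k * (L * d - p * q) ≤ L * q := by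
        intro d hda hdb
        rcases le_or_gt 0 (L * d - p * q) with h | h
        · have := bR d hda hdb
          have h' : 4 * k * (L * d - p * q) ≤ 4 * (-Wp) * (L * d - p * q) :=
            mul_le_mul_of_nonneg_right (by linarith) h
          linarith
        · have : 4 * k * (L * d - p * q) ≤ 0 := by nlinarith
          linarith
      refine ⟨k, hk, ?_, ?_⟩
      · have a1 := cL (A0 + 10 * M) le_rfl (by omega)
        have a2 := cR (B0 - 10 * M) (by omega) le_rfl
        have a3 : L * (2 * k * ((B0 - 10 * M) - (A0 + 10 * M))) ≤ L * q := by nlinarith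
        exact le_of_mul_le_mul_left a3 hL
      · intro d hda hdb n
        refine Ari_half hL hq0 hJ ?_
        rw [abs_le]
        constructor
        · have := cR d hda hdb
          linarith
        · exact cL d hda hdb
    rcases le_total Wm (-Wp) with h | h
    · exact key Wm jm wm1 le_rfl h wm4
    · exact key (-Wp) (-jp - 1) (by linarith) h le_rfl (by linarith)
  · push Not at hV
    obtain ⟨W, j, e1, e2⟩ := h4 (A0 + 10 * M) (by omega) (by omega)
      (hV _ le_rfl (by omega))
    have lin : ∀ n : ℕ, A0 + 10 * M + n ≤ B0 - 10 * M →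
        c (A0 + 10 * M + n) - c (A0 + 10 * M + n + 1) = 4 * W ∧
          c (A0 + 10 * M + n) = c (A0 + 10 * M) - 4 * W * n := by
      intro n
      induction n with
      | zero => intro _; simp; linarith
      | succ n ih =>
        intro hn
        push_cast at hn ⊢
        obtain ⟨i1, i2⟩ := ih (by omega)
        have hh := h2 (A0 + 10 * M + n + 1) (by omega) (by omega)
          (hV (A0 + 10 * M + n + 1) (by omega) (by omega))
        have e3 : A0 + 10 * M + (n + 1 : ℤ) = A0 + 10 * M + n + 1 := by ring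
        have e4 : A0 + 10 * M + (n : ℤ) + 1 - 1 = A0 + 10 * M + n := by ring
        rw [e4] at hh
        rw [e3]
        constructor
        · linarith
        · nlinarith
    have val : ∀ d, A0 + 10 * M ≤ d → d ≤ B0 - 10 * M → 4 * W * d = 4 * j * q + q - c d := by
      intro d hda hdb
      obtain ⟨n, hn⟩ := Int.eq_ofNat_of_zero_le (sub_nonneg.mpr hda)
      have hdn : d = A0 + 10 * M + n := by linarith
      obtain ⟨-, i2⟩ := lin n (by omega)
      rw [hdn, i2]
      have : 4 * W * (A0 + 10 * M + n) = 4 * W * (A0 + 10 * M) + 4 * W * n := by ring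
      rw [this, e2]; ring
    have hW : W ≠ 0 := by
      rintro rfl
      have hc := h3 (A0 + 10 * M) (by omega) (by omega)
      rcases le_or_gt 0 j with hj | hj
      · nlinarith
      · have : j ≤ -1 := by omega
        nlinarith
    have range : ∀ k : ℤ, (k = W ∨ k = -W) → 1 ≤ k →
        2 * k * ((B0 - 10 * M) - (A0 + 10 * M)) ≤ q := by
      intro k hk hk1
      have a1 := val (A0 + 10 * M) le_rfl (by omega)
      have a2 := val (B0 - 10 * M) (by omega) le_rfl
      have b1 := h3 (A0 + 10 * M) (by omega) (by omega)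
      have b2 := h3 (B0 - 10 * M) (by omega) (by omega)
      have b3 : 0 ≤ k * ((B0 - 10 * M) - (A0 + 10 * M)) := mul_nonneg (by omega) (by omega)
      rcases hk with rfl | rfl
      · nlinarith
      · nlinarith
    rcases lt_or_gt_of_ne hW with hneg | hpos
    · refine ⟨-W, by omega, range _ (Or.inr rfl) (by omega), ?_⟩
      intro d hda hdb n
      have hv := val d hda hdb
      have hc := h3 d (by omega) (by omega)
      have e : 4 * (-W * d - n * q) = -(q - c d) - 4 * (j + n) * q := by linarith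
      have e' : 4 * |-W * d - n * q| = |4 * (-W * d - n * q)| := by
        rw [abs_mul]; simp
      rw [e', e]
      rcases le_or_gt 0 (j + n) with h | h
      · refine le_trans ?_ (neg_le_abs _)
        nlinarith [mul_nonneg h hq0.le]
      · refine le_trans ?_ (le_abs_self _)
        nlinarith [mul_nonneg (show (0:ℤ) ≤ -(j + n) - 1 by omega) hq0.le]
    · refine ⟨W, by omega, range _ (Or.inl rfl) (by omega), ?_⟩
      intro d hda hdb n
      have hv := val d hda hdb
      have hc := h3 d (by omega) (by omega)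
      have e : 4 * (W * d - n * q) = (q - c d) + 4 * (j - n) * q := by linarith
      have e' : 4 * |W * d - n * q| = |4 * (W * d - n * q)| := by
        rw [abs_mul]; simp
      rw [e', e]
      rcases le_or_gt 0 (j - n) with h | h
      · refine le_trans ?_ (le_abs_self _)
        nlinarith [mul_nonneg h hq0.le]
      · refine le_trans ?_ (neg_le_abs _)
        nlinarith [mul_nonneg (show (0:ℤ) ≤ -(j - n) - 1 by omega) hq0.le]

end Pool.Agent.WND
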