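import Pool.Agent.WND.Eq

set_option autoImplicit false

open Finset

namespace Pool.Agent.WND

/-- one step of the chain -/
theorem chain_step {f : ℤ → ℤ} (hf : Pm f) {a b : ℤ} (hA : Av f a b) {u v : ℤ}
    (hu : Fl f u) (hv : Fl f v) (huv : f v = - f u) (h1 : a ≤ v - u - 1) (h2 : v - u + 1 ≤ b) :
    ∃ z : ℤ, |z - 2 * v + u| ≤ 1 ∧ Fl f z ∧ f z = - f v := by
  have e1 : f (u + 1) = - f u := by
    unfold Fl at hu
    rcases hf u with h | h <;> rcases hf (u + 1) with h' | h' <;> rw [h] at hu ⊢ <;>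
      rw [h'] at hu ⊢ <;> simp_all
  have e2 : f (v + 1) = f u := by
    unfold Fl at hv
    rcases hf u with h | h <;> rcases hf (v + 1) with h' | h' <;> rw [huv, h, h'] at hv <;>
      rw [h, h'] <;> simp_all
  have e3 : f (2 * v - u - 1) = f u := by
    have h := hA (u + 1) (v - u - 1) h1 (by omega)
    have i1 : u + 1 + (v - u - 1) = v := by ring
    have i2 : u + 1 + 2 * (v - u - 1) = 2 * v - u - 1 := by ring
    rw [i1, i2, e1, huv] at h
    rcases hf u with h' | h' <;> rcases hf (2 * v - u - 1) with h'' | h'' <;>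
      rw [h', h''] at h ⊢ <;> simp_all
  have e4 : f (2 * v - u + 2) = - f u := by
    have h := hA u (v - u + 1) (by omega) h2
    have i1 : u + (v - u + 1) = v + 1 := by ring
    have i2 : u + 2 * (v - u + 1) = 2 * v - u + 2 := by ring
    rw [i1, i2, e2] at h
    rcases hf u with h' | h' <;> rcases hf (2 * v - u + 2) with h'' | h'' <;>
      rw [h', h''] at h ⊢ <;> simp_all
  have hne : f u ≠ - f u := by
    rcases hf u with h | h <;> rw [h] <;> decide
  rw [huv, neg_neg]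
  by_cases c1 : f (2 * v - u - 1 + 1) = f u
  · by_cases c2 : f (2 * v - u - 1 + 1 + 1) = f u
    · refine ⟨2 * v - u - 1 + 1 + 1, ?_, ?_, c2⟩
      · rw [abs_le]; constructor <;> linarith
      · unfold Fl
        have i : 2 * v - u - 1 + 1 + 1 + 1 = 2 * v - u + 2 := by ring
        rw [c2, i, e4]
        exact fun h => hne h.symm
    · refine ⟨2 * v - u - 1 + 1, ?_, ?_, c1⟩
      · rw [abs_le]; constructor <;> linarith
      · unfold Fl
        rw [c1]
        exact c2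
  · refine ⟨2 * v - u - 1, ?_, ?_, e3⟩
    · rw [abs_le]; constructor <;> linarith
    · unfold Fl
      rw [e3]
      exact c1

theorem chain_ex {f : ℤ → ℤ} (hf : Pm f) {a b : ℤ} (hA : Av f a b) (ha : 0 < a) {x0 d0 : ℤ}
    {T : ℕ} (h0 : Fl f x0) (h1 : Fl f (x0 + d0)) (hd1 : a + T < d0) (hd2 : d0 + T < b) :
    ∃ X : ℕ → ℤ, X 0 = x0 ∧ X 1 = x0 + d0 ∧ (∀ t ≤ T + 1, Fl f (X t)) ∧
      (∀ t ≤ T, f (X (t + 1)) = - f (X t)) ∧
      ∀ t < T, |X (t + 2) - 2 * X (t + 1) + X t| ≤ 1 := by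
  classical
  have hstep : ∀ p : ℤ × ℤ, ∃ z : ℤ, (Fl f p.1 → Fl f p.2 → f p.2 = - f p.1 →
      a ≤ p.2 - p.1 - 1 → p.2 - p.1 + 1 ≤ b →
      |z - 2 * p.2 + p.1| ≤ 1 ∧ Fl f z ∧ f z = - f p.2) := by
    intro p
    by_cases h : Fl f p.1 ∧ Fl f p.2 ∧ f p.2 = - f p.1 ∧ a ≤ p.2 - p.1 - 1 ∧ p.2 - p.1 + 1 ≤ b
    · obtain ⟨z, hz⟩ := chain_step hf hA h.1 h.2.1 h.2.2.1 h.2.2.2.1 h.2.2.2.2
      exact ⟨z, fun _ _ _ _ _ => hz⟩
    · exact ⟨0, fun a1 a2 a3 a4 a5 => absurd ⟨a1, a2, a3, a4, a5⟩ h⟩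
  choose S hS using hstep
  let g : ℕ → ℤ × ℤ := fun t => Nat.rec (x0, x0 + d0) (fun _ p => (p.2, S p)) t
  have g0 : g 0 = (x0, x0 + d0) := rfl
  have gs : ∀ t, g (t + 1) = ((g t).2, S (g t)) := fun t => rfl
  have key : ∀ t : ℕ, t ≤ T → Fl f (g t).1 ∧ Fl f (g t).2 ∧ f (g t).2 = - f (g t).1 ∧
      |(g t).2 - (g t).1 - d0| ≤ t := by
    intro t
    induction t with
    | zero =>
      intro _
      rw [g0]
      refine ⟨h0, h1, no_eq hf hA ha (by omega) (by omega) h0 h1, ?_⟩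
      simp
    | succ t ih =>
      intro ht
      obtain ⟨a1, a2, a3, a4⟩ := ih (by omega)
      rw [abs_le] at a4
      have ht' : (t : ℤ) + 1 ≤ T := by exact_mod_cast ht
      obtain ⟨b1, b2, b3⟩ := hS (g t) a1 a2 a3 (by omega) (by omega)
      rw [gs]
      refine ⟨a2, b2, b3, ?_⟩
      rw [abs_le] at b1 ⊢
      push_cast
      constructor <;> omega
  refine ⟨fun t => (g t).1, congrArg Prod.fst g0, ?_, ?_, ?_, ?_⟩
  · show (g (0 + 1)).1 = x0 + d0
    rw [gs, g0]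
  · intro t ht
    rcases Nat.lt_or_ge t (T + 1) with h | h
    · exact (key t (by omega)).1
    · obtain rfl : t = T + 1 := by omega
      show Fl f (g (T + 1)).1
      rw [gs]
      exact (key T le_rfl).2.1
  · intro t ht
    show f (g (t + 1)).1 = - f (g t).1
    rw [gs]
    exact (key t ht).2.2.1
  · intro t ht
    show |(g (t + 2)).1 - 2 * (g (t + 1)).1 + (g t).1| ≤ 1
    obtain ⟨a1, a2, a3, a4⟩ := key t (by omega)
    rw [abs_le] at a4
    have ht' : (t : ℤ) + 1 ≤ T := by exact_mod_cast ht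
    obtain ⟨b1, b2, b3⟩ := hS (g t) a1 a2 a3 (by omega) (by omega)
    rw [gs (t + 1), gs t]
    exact b1

end Pool.Agent.WND
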