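import Mathlib

/-!
# WND: differences in an arc, winding numbers of colourings; definitions
-/

set_option autoImplicit false

open Finset

namespace Pool.Agent.WND

/-- values plus or minus one -/
def Pm (f : ℤ → ℤ) : Prop := ∀ x, f x = 1 ∨ f x = -1

/-- no monochromatic `x, x + d, x + 2 d` with `a ≤ d ≤ b` -/
def Av (f : ℤ → ℤ) (a b : ℤ) : Prop :=
  ∀ x d, a ≤ d → d ≤ b → ¬ (f (x + d) = f x ∧ f (x + 2 * d) = f x)

/-- period `q` -/
def Per (f : ℤ → ℤ) (q : ℕ) : Prop := ∀ x, f (x + q) = f x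

/-- the colour changes between `x` and `x + 1` -/
def Fl (f : ℤ → ℤ) (x : ℤ) : Prop := f (x + 1) ≠ f x

/-- autocorrelation -/
def co (f : ℤ → ℤ) (q : ℕ) (d : ℤ) : ℤ := ∑ x ∈ range q, f x * f (x + d)

/-- a vortex at level `d`: simultaneous changes at `x` and `x + d` -/
def Vx (f : ℤ → ℤ) (d : ℤ) : Prop := ∃ x, Fl f x ∧ Fl f (x + d)

/-- The colouring `C` has a progression of colour `b`, difference `d` and `k` terms. -/
def HasAP (C : ℤ → Bool) (b : Bool) (d k : ℕ) : Prop :=
  ∃ a : ℤ, ∀ i < k, C (a + i * d) = b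

/-- The admissible functions of the problem. -/
def Admissible (f : ℕ → ℕ) : Prop :=
  ∀ C : ℤ → Bool, ∃ b : Bool, {d : ℕ | 1 ≤ d ∧ HasAP C b d (f d)}.Infinite

/-- Distance to the nearest integer. -/
noncomputable def distInt (x : ℝ) : ℝ := |x - round x|

end Pool.Agent.WND
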