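import Pool.Agent.WND.Defs

set_option autoImplicit false

open Finset

namespace Pool.Agent.WND

private lemma EQ_or {f : ℤ → ℤ} (hf : Pm f) (c : ℤ) (hc : c = 1 ∨ c = -1) (x : ℤ)
    (h : f x ≠ c) : f x = -c := by
  have := hf x
  omega

/-- one step -/
private lemma EQ_step {f : ℤ → ℤ} (hf : Pm f) {a b : ℤ} (hA : Av f a b) {u d c : ℤ}
    (hc : c = 1 ∨ c = -1) (h1 : a < d) (h2 : d < b) (hu : f u = c) (hu1 : f (u + 1) = -c)
    (hv : f (u + d) = c) (hv1 : f (u + d + 1) = -c) :
    f (u + 2) = c ∧ f (u + d + 2) = c := by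
  have hc' : -c = 1 ∨ -c = -1 := by omega
  -- the term before
  have e1 : f (u - d) = -c := by
    apply EQ_or hf c hc
    intro h
    apply hA (u - d) d h1.le h2.le
    rw [show u - d + d = u by ring, show u - d + 2 * d = u + d by ring, hu, hv, h]
    exact ⟨rfl, rfl⟩
  -- the term after
  have e2 : f (u + 2 * d) = -c := by
    apply EQ_or hf c hc
    intro h
    apply hA u d h1.le h2.le
    rw [hu, hv, h]
    exact ⟨rfl, rfl⟩
  constructor
  · have e3 : f (u + 2) = -(-c) := by
      apply EQ_or hf (-c) hc'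
      intro h
      apply hA (u + 2) (d - 1) (by omega) (by omega)
      rw [show u + 2 + (d - 1) = u + d + 1 by ring, show u + 2 + 2 * (d - 1) = u + 2 * d by ring,
        hv1, e2, h]
      exact ⟨rfl, rfl⟩
    rw [e3, neg_neg]
  · have e3 : f (u + d + 2) = -(-c) := by
      apply EQ_or hf (-c) hc'
      intro h
      apply hA (u - d) (d + 1) (by omega) (by omega)
      rw [show u - d + (d + 1) = u + 1 by ring, show u - d + 2 * (d + 1) = u + d + 2 by ring,
        hu1, e1, h]
      exact ⟨rfl, rfl⟩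
    rw [e3, neg_neg]

theorem no_eq {f : ℤ → ℤ} (hf : Pm f) {a b : ℤ} (hA : Av f a b) (ha : 0 < a) {x d : ℤ}
    (h1 : a < d) (h2 : d < b) (hx : Fl f x) (hy : Fl f (x + d)) : f (x + d) = - f x := by
  by_contra hne
  obtain ⟨c, hc⟩ : ∃ c, c = f x := ⟨_, rfl⟩
  have hc1 : c = 1 ∨ c = -1 := by rw [hc]; exact hf x
  have hc2 : -c = 1 ∨ -c = -1 := by omega
  have g0 : f x = c := hc.symm
  have g1 : f (x + d) = c := by
    have := hf (x + d)
    have := hf x
    omega
  have g2 : f (x + 1) = -c := by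
    apply EQ_or hf c hc1
    intro h
    exact hx (by rw [h, g0])
  have g3 : f (x + d + 1) = -c := by
    apply EQ_or hf c hc1
    intro h
    exact hy (by rw [h, g1])
  have key : ∀ j : ℕ, f (x + 2 * (j : ℤ)) = c ∧ f (x + 2 * (j : ℤ) + 1) = -c ∧
      f (x + 2 * (j : ℤ) + d) = c ∧ f (x + 2 * (j : ℤ) + d + 1) = -c := by
    intro j
    induction j with
    | zero =>
      simp only [Nat.cast_zero, mul_zero, add_zero]
      exact ⟨g0, g2, g1, g3⟩
    | succ j ih =>
      obtain ⟨i1, i2, i3, i4⟩ := ih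
      obtain ⟨s1, s2⟩ := EQ_step hf hA hc1 h1 h2 i1 i2 i3 i4
      have i4' : f (x + 2 * (j : ℤ) + 1 + d) = -c := by
        rw [show x + 2 * (j : ℤ) + 1 + d = x + 2 * (j : ℤ) + d + 1 by ring]; exact i4
      have s1' : f (x + 2 * (j : ℤ) + 1 + 1) = -(-c) := by
        rw [show x + 2 * (j : ℤ) + 1 + 1 = x + 2 * (j : ℤ) + 2 by ring, neg_neg]; exact s1
      have s2' : f (x + 2 * (j : ℤ) + 1 + d + 1) = -(-c) := by
        rw [show x + 2 * (j : ℤ) + 1 + d + 1 = x + 2 * (j : ℤ) + d + 2 by ring, neg_neg]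
        exact s2
      obtain ⟨t1, t2⟩ := EQ_step hf hA hc2 h1 h2 i2 s1' i4' s2'
      refine ⟨?_, ?_, ?_, ?_⟩
      · rw [show x + 2 * ((j + 1 : ℕ) : ℤ) = x + 2 * (j : ℤ) + 2 by push_cast; ring]
        exact s1
      · rw [show x + 2 * ((j + 1 : ℕ) : ℤ) + 1 = x + 2 * (j : ℤ) + 1 + 2 by push_cast; ring]
        exact t1
      · rw [show x + 2 * ((j + 1 : ℕ) : ℤ) + d = x + 2 * (j : ℤ) + d + 2 by push_cast; ring]
        exact s2
      · rw [show x + 2 * ((j + 1 : ℕ) : ℤ) + d + 1 = x + 2 * (j : ℤ) + 1 + d + 2 by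
          push_cast; ring]
        exact t2
  have hd : ((d.toNat : ℕ) : ℤ) = d := Int.toNat_of_nonneg (by omega)
  have h3 := (key d.toNat).1
  rw [hd] at h3
  exact hA x d h1.le h2.le ⟨by rw [g1, g0], by rw [h3, g0]⟩

theorem uniq_right {f : ℤ → ℤ} (hf : Pm f) {a b : ℤ} (hA : Av f a b) (ha : 0 < a) {u v w : ℤ}
    (hu : Fl f u) (hv : Fl f v) (hw : Fl f w) (h1 : u + a < v) (h2 : v < w) (h3 : w < u + b) :
    False := by
  have hno : ∀ y, v ≤ y → y ≤ w → Fl f y → f y = - f u := by
    intro y hy1 hy2 hy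
    have := no_eq hf hA ha (x := u) (d := y - u) (by omega) (by omega) hu
      (by rw [show u + (y - u) = y by ring]; exact hy)
    rwa [show u + (y - u) = y by ring] at this
  have hv1 : f (v + 1) = f u := by
    have e := hno v le_rfl h2.le hv
    have h := hf (v + 1)
    have hu' := hf u
    have hne : f (v + 1) ≠ f v := hv
    omega
  have hall : ∀ y, v + 1 ≤ y → y ≤ w → f y = f u := by
    intro y hy
    induction y, hy using Int.leInduction with
    | base => intro _; exact hv1
    | succ n hn ih =>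
      intro hnw
      have e := ih (by omega)
      by_contra hne
      have hfl : Fl f n := by
        intro h
        exact hne (h.trans e)
      have := hno n (by omega) (by omega) hfl
      have hu' := hf u
      omega
  have e1 := hall w (by omega) le_rfl
  have e2 := hno w h2.le le_rfl hw
  have hu' := hf u
  omega

end Pool.Agent.WND
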