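import Pool.Agent.WND.Defs

set_option autoImplicit false

open Finset

namespace Pool.Agent.WND

/-- a sum over a period does not change under a translation -/
theorem rng_shift {g : ℤ → ℤ} {q : ℕ} (hg : ∀ x, g (x + q) = g x) (d : ℤ) :
    ∑ x ∈ range q, g ((x : ℤ) + d) = ∑ x ∈ range q, g (x : ℤ) := by
  have step : ∀ e : ℤ, ∑ x ∈ range q, g ((x : ℤ) + (e + 1)) = ∑ x ∈ range q, g ((x : ℤ) + e) := by
    intro e
    have h := Finset.sum_range_sub (fun x : ℕ => g ((x : ℤ) + e)) q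
    have h2 : g ((q : ℤ) + e) - g (((0 : ℕ) : ℤ) + e) = 0 := by
      have h3 := hg e
      have h4 : (q : ℤ) + e = e + q := by ring
      rw [h4, h3]
      simp
    rw [h2, Finset.sum_sub_distrib] at h
    have h5 : ∑ x ∈ range q, g ((x : ℤ) + (e + 1)) =
        ∑ x ∈ range q, g (((x + 1 : ℕ) : ℤ) + e) := by
      refine Finset.sum_congr rfl fun x _ => ?_
      congr 1
      push_cast
      ring
    rw [h5]
    linarith
  induction d using Int.induction_on with
  | zero => simp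
  | succ n ih => rw [step]; exact ih
  | pred n ih =>
    have h := step (-(n : ℤ) - 1)
    rw [show (-(n : ℤ) - 1 + 1) = -(n : ℤ) by ring] at h
    rw [← h]
    exact ih

/-- RNG -/
theorem alt_count {f : ℤ → ℤ} (hf : Pm f) {q : ℕ} (hP : Per f q) {a b : ℤ} (hA : Av f a b)
    {d : ℤ} (h1 : a ≤ d) (h2 : d ≤ b) :
    (((range q).filter (fun x : ℕ => f ((x : ℤ) + 2 * d) = f x)).card : ℤ) = - co f q d := by
  have hper : ∀ x : ℤ, f (x + q) * f (x + q + d) = f x * f (x + d) := by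
    intro x
    have e : x + q + d = x + d + q := by ring
    rw [e, hP x, hP (x + d)]
  have hs : ∑ x ∈ range q, f ((x : ℤ) + d) * f ((x : ℤ) + d + d) = co f q d :=
    rng_shift (g := fun x => f x * f (x + d)) hper d
  have hpt : ∀ x : ℤ, f x * f (x + d) + f (x + d) * f (x + d + d) + f x * f (x + 2 * d) = -1 := by
    intro x
    have e : x + d + d = x + 2 * d := by ring
    rw [e]
    have h := hA x d h1 h2
    rcases hf x with h3 | h3 <;> rcases hf (x + d) with h4 | h4 <;>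
      rcases hf (x + 2 * d) with h5 | h5 <;> rw [h3, h4, h5] at h ⊢ <;> simp at h ⊢
  have hsum : ∑ x ∈ range q, (f (x : ℤ) * f ((x : ℤ) + d) +
      f ((x : ℤ) + d) * f ((x : ℤ) + d + d) + f (x : ℤ) * f ((x : ℤ) + 2 * d)) = -(q : ℤ) := by
    rw [Finset.sum_congr rfl fun (x : ℕ) _ => hpt (x : ℤ)]
    simp
  rw [Finset.sum_add_distrib, Finset.sum_add_distrib, hs] at hsum
  have hco : ∑ x ∈ range q, f (x : ℤ) * f ((x : ℤ) + d) = co f q d := rfl
  rw [hco] at hsum
  have hcount : ∑ x ∈ range q, f (x : ℤ) * f ((x : ℤ) + 2 * d) =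
      2 * (((range q).filter (fun x : ℕ => f ((x : ℤ) + 2 * d) = f x)).card : ℤ) - q := by
    have h3 : ∀ x ∈ range q, f (x : ℤ) * f ((x : ℤ) + 2 * d) =
        2 * (if f ((x : ℤ) + 2 * d) = f x then (1 : ℤ) else 0) - 1 := by
      intro x _
      rcases hf (x : ℤ) with h4 | h4 <;> rcases hf ((x : ℤ) + 2 * d) with h5 | h5 <;>
        rw [h4, h5] <;> norm_num
    rw [Finset.sum_congr rfl h3, Finset.sum_sub_distrib, ← Finset.mul_sum]
    simp [Finset.sum_boole]
  rw [hcount] at hsum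
  linarith

theorem co_range {f : ℤ → ℤ} (hf : Pm f) {q : ℕ} (hP : Per f q) {a b : ℤ} (hA : Av f a b)
    {d : ℤ} (h1 : a ≤ d) (h2 : d ≤ b) : -(q : ℤ) ≤ co f q d ∧ co f q d ≤ 0 := by
  have h := alt_count hf hP hA h1 h2
  have h3 : (((range q).filter (fun x : ℕ => f ((x : ℤ) + 2 * d) = f x)).card : ℤ) ≤ q := by
    have := Finset.card_filter_le (range q) (fun x : ℕ => f ((x : ℤ) + 2 * d) = f x)
    rw [Finset.card_range] at this
    exact_mod_cast this
  have h4 : (0 : ℤ) ≤ (((range q).filter (fun x : ℕ => f ((x : ℤ) + 2 * d) = f x)).card : ℤ) :=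
    Nat.cast_nonneg _
  constructor <;> linarith

end Pool.Agent.WND
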