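import Pool.Agent.WND.Defs
import Pool.Agent.WND.Rng

/-!
# WND / Lft: the lift of the state (f x, f (x + d)) to the integers
-/

set_option autoImplicit false

open Finset

namespace Pool.Agent.WND

/-- a function with given increments -/
private theorem lft_prim (e : ℤ → ℤ) (c : ℤ) :
    ∃ A : ℤ → ℤ, A 0 = c ∧ ∀ x, A (x + 1) = A x + e x := by
  refine ⟨fun x => match x with
    | Int.ofNat n => c + ∑ i ∈ range n, e i
    | Int.negSucc n => c - ∑ i ∈ range (n + 1), e (-1 - i), ?_, ?_⟩
  · show c + ∑ i ∈ range 0, e i = c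
    simp
  · intro x
    rcases x with n | n
    · show c + ∑ i ∈ range (n + 1), e i = c + ∑ i ∈ range n, e i + e (Int.ofNat n)
      rw [sum_range_succ]
      have : (Int.ofNat n) = (n : ℤ) := rfl
      rw [this]
      ring
    · rcases n with _ | m
      · show c + ∑ i ∈ range 0, e i = c - ∑ i ∈ range (0 + 1), e (-1 - i) + e (Int.negSucc 0)
        have : Int.negSucc 0 = (-1 - ((0 : ℕ) : ℤ)) := rfl
        rw [this]
        simp
      · show c - ∑ i ∈ range (m + 1), e (-1 - i) =
          c - ∑ i ∈ range (m + 1 + 1), e (-1 - i) + e (Int.negSucc (m + 1))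
        rw [sum_range_succ _ (m + 1)]
        have : Int.negSucc (m + 1) = (-1 - ((m + 1 : ℕ) : ℤ)) := by
          rw [Int.negSucc_eq]
          push_cast
          ring
        rw [this]
        ring

private theorem lft_const (B : ℤ → ℤ) (h : ∀ x, B (x + 1) = B x) : ∀ x, B x = B 0 := by
  intro x
  induction x using Int.induction_on with
  | zero => rfl
  | succ i ih => rw [h, ih]
  | pred i ih =>
    have := h (-(i : ℤ) - 1)
    rw [sub_add_cancel] at this
    rw [← this, ih]

private theorem lft_shift (g : ℤ → ℤ) (q : ℕ) :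
    ∑ x ∈ range q, g ((x : ℤ) + 1) = ∑ x ∈ range q, g x + (g q - g 0) := by
  have h1 := sum_range_succ (fun x : ℕ => g (x : ℤ)) q
  have h2 := sum_range_succ' (fun x : ℕ => g (x : ℤ)) q
  push_cast at h1 h2
  linarith

/-- the code of a state -/
private def lcc (u v : ℤ) : ℤ :=
  if u = 1 then (if v = 1 then 0 else 1) else (if v = 1 then 3 else 2)

/-- the increments -/
private def lee (f : ℤ → ℤ) (d x : ℤ) : ℤ :=
  if f (x + 1) = f x then (if f (x + d + 1) = f (x + d) then 0 else f x * f (x + d))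
  else -(f x * f (x + d))

/-- the steps ahead -/
private def ldl (f : ℤ → ℤ) (d x : ℤ) : ℤ := if f (x + 2 * d) = f x then 2 else 1

private theorem lft_code {f : ℤ → ℤ} (hf : Pm f) {d : ℤ} (hv : ¬ Vx f d) (x : ℤ) :
    (4 : ℤ) ∣ lcc (f (x + 1)) (f (x + d + 1)) - lcc (f x) (f (x + d)) - lee f d x := by
  have h1 : f (x + 1) = f x ∨ f (x + d + 1) = f (x + d) := by
    by_contra hcon
    push Not at hcon
    exact hv ⟨x, hcon.1, hcon.2⟩
  unfold lcc lee
  rcases hf x with a1 | a1 <;> rcases hf (x + 1) with a2 | a2 <;>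
    rcases hf (x + d) with a3 | a3 <;> rcases hf (x + d + 1) with a4 | a4 <;>
    rw [a1, a2, a3, a4] at h1 ⊢ <;> revert h1 <;> decide

private theorem lft_two {f : ℤ → ℤ} (hf : Pm f) {d : ℤ} (hv : ¬ Vx f d) (x : ℤ) :
    2 * lee f d x = f x * f (x + d) - 2 * (f x * f (x + d + 1)) + f (x + 1) * f (x + d + 1) := by
  have h1 : f (x + 1) = f x ∨ f (x + d + 1) = f (x + d) := by
    by_contra hcon
    push Not at hcon
    exact hv ⟨x, hcon.1, hcon.2⟩
  unfold lee
  rcases hf x with a1 | a1 <;> rcases hf (x + 1) with a2 | a2 <;>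
    rcases hf (x + d) with a3 | a3 <;> rcases hf (x + d + 1) with a4 | a4 <;>
    rw [a1, a2, a3, a4] at h1 ⊢ <;> revert h1 <;> decide

private theorem lft_abs {f : ℤ → ℤ} (hf : Pm f) (d x : ℤ) : |lee f d x| ≤ 1 := by
  unfold lee
  rcases hf x with a1 | a1 <;> rcases hf (x + d) with a3 | a3 <;> rw [a1, a3] <;>
    split_ifs <;> decide

private theorem lft_ahead {f : ℤ → ℤ} (hf : Pm f) {a b : ℤ} (hA : Av f a b)
    {d : ℤ} (h1 : a ≤ d) (h2 : d ≤ b) (x : ℤ) :
    (4 : ℤ) ∣ lcc (f (x + d)) (f (x + d + d)) - lcc (f x) (f (x + d)) - ldl f d x := by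
  have h3 := hA x d h1 h2
  have e : x + d + d = x + 2 * d := by ring
  rw [e]
  unfold lcc ldl
  rcases hf x with a1 | a1 <;> rcases hf (x + d) with a3 | a3 <;>
    rcases hf (x + 2 * d) with a4 | a4 <;> rw [a1, a3, a4] at h3 ⊢ <;> revert h3 <;> decide

theorem lift {f : ℤ → ℤ} (hf : Pm f) {q : ℕ} (hP : Per f q) {a b : ℤ} (hA : Av f a b)
    {d : ℤ} (h0 : 0 ≤ d) (h1 : a ≤ d) (h2 : d ≤ b) (hv : ¬ Vx f d) :
    ∃ (A : ℤ → ℤ) (W j : ℤ),
      (∀ x, A (x + d) - A x = 4 * j + (if f (x + 2 * d) = f x then 2 else 1)) ∧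
      (∀ x, A (x + q) = A x + 4 * W) ∧
      (∀ x, ¬ Fl f x → ¬ Fl f (x + d) → A (x + 1) = A x) ∧
      4 * W = co f q d - co f q (d + 1) ∧ 4 * W * d = 4 * j * q + q - co f q d := by
  obtain ⟨A, hA0, hA1⟩ := lft_prim (lee f d) (lcc (f 0) (f (0 + d)))
  -- the code
  have hcode : ∀ x, (4 : ℤ) ∣ A x - lcc (f x) (f (x + d)) := by
    intro x
    induction x using Int.induction_on with
    | zero => rw [hA0]; simp
    | succ i ih =>
      have h3 := lft_code hf hv (i : ℤ)
      have e1 : (i : ℤ) + 1 + d = i + d + 1 := by ring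
      rw [hA1, e1]
      have h4 := dvd_sub ih h3
      have e2 : A i + lee f d i - lcc (f (i + 1)) (f (i + d + 1)) =
          A i - lcc (f i) (f (i + d)) -
            (lcc (f (i + 1)) (f (i + d + 1)) - lcc (f i) (f (i + d)) - lee f d i) := by ring
      rw [e2]
      exact h4
    | pred i ih =>
      have h3 := lft_code hf hv (-(i : ℤ) - 1)
      have h5 := hA1 (-(i : ℤ) - 1)
      rw [sub_add_cancel] at h5 h3
      have e1 : -(i : ℤ) - 1 + d + 1 = -i + d := by ring
      rw [e1] at h3
      have h4 := dvd_add ih h3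
      have e2 : A (-(i : ℤ) - 1) - lcc (f (-(i : ℤ) - 1)) (f (-(i : ℤ) - 1 + d)) =
          A (-(i : ℤ)) - lcc (f (-i)) (f (-i + d)) +
            (lcc (f (-i)) (f (-i + d)) - lcc (f (-i - 1)) (f (-i - 1 + d)) -
              lee f d (-i - 1)) := by
        rw [h5]; ring
      rw [e2]
      exact h4
  -- steps ahead
  have hex : ∀ x, ∃ j, A (x + d) - A x = 4 * j + ldl f d x := by
    intro x
    obtain ⟨u, hu⟩ := hcode x
    obtain ⟨v, hv'⟩ := hcode (x + d)
    obtain ⟨w, hw⟩ := lft_ahead hf hA h1 h2 x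
    refine ⟨v - u + w, ?_⟩
    linarith
  choose J hJ using hex
  have hldl : ∀ x, 1 ≤ ldl f d x ∧ ldl f d x ≤ 2 := by
    intro x
    unfold ldl
    split_ifs <;> constructor <;> norm_num
  have hJc : ∀ x, J (x + 1) = J x := by
    intro x
    have h3 := hJ x
    have h4 := hJ (x + 1)
    have e1 : x + 1 + d = x + d + 1 := by ring
    rw [e1, hA1, hA1] at h4
    have h5 := abs_le.1 (lft_abs hf d x)
    have h6 := abs_le.1 (lft_abs hf d (x + d))
    have h7 := hldl x
    have h8 := hldl (x + 1)
    omega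
  have hJ0 := lft_const J hJc
  -- the period
  have hperf : ∀ x, f (x + q) = f x := hP
  have hle : ∀ x, lee f d (x + q) = lee f d x := by
    intro x
    unfold lee
    have e1 : x + q + 1 = x + 1 + q := by ring
    have e2 : x + q + d + 1 = x + d + 1 + q := by ring
    have e3 : x + q + d = x + d + q := by ring
    rw [e1, e2, e3, hperf, hperf, hperf, hperf]
  have hB := lft_const (fun x => A (x + q) - A x) (by
    intro x
    show A (x + 1 + q) - A (x + 1) = A (x + q) - A x
    have e1 : x + 1 + q = x + q + 1 := by ring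
    rw [e1, hA1, hA1, hle]
    ring)
  have h4W : (4 : ℤ) ∣ A (0 + q) - A 0 := by
    have h3 := dvd_sub (hcode (0 + q)) (hcode 0)
    have e1 : (0 : ℤ) + q + d = 0 + d + q := by ring
    rw [e1, hperf, hperf] at h3
    have e2 : A (0 + q) - lcc (f 0) (f (0 + d)) - (A 0 - lcc (f 0) (f (0 + d))) =
        A (0 + q) - A 0 := by ring
    rwa [e2] at h3
  obtain ⟨W, hW⟩ := h4W
  have hWx : ∀ x, A (x + q) = A x + 4 * W := by
    intro x
    have h3 : A (x + q) - A x = A (0 + q) - A 0 := hB x
    linarith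
  refine ⟨A, W, J 0, ?_, hWx, ?_, ?_, ?_⟩
  · intro x
    have h3 := hJ x
    rw [hJ0 x] at h3
    exact h3
  · intro x h3 h4
    unfold Fl at h3 h4
    push Not at h3 h4
    rw [hA1]
    unfold lee
    rw [if_pos h3, if_pos h4, add_zero]
  · -- the sum of the increments
    have hs : ∀ n : ℕ, A n - A 0 = ∑ i ∈ range n, lee f d i := by
      intro n
      induction n with
      | zero => simp
      | succ n ih =>
        rw [sum_range_succ, ← ih]
        push_cast
        rw [hA1]
        ring
    have h3 := hs q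
    rw [zero_add] at hW
    have h5 : 2 * (A q - A 0) = 2 * (co f q d - co f q (d + 1)) := by
      rw [h3, mul_sum]
      have e1 : ∀ i ∈ range q, 2 * lee f d (i : ℤ) = f i * f (i + d) -
          2 * (f i * f (i + (d + 1))) + f (i + 1) * f (i + 1 + d) := by
        intro i _
        rw [lft_two hf hv]
        have e2 : (i : ℤ) + d + 1 = i + (d + 1) := by ring
        have e3 : (i : ℤ) + 1 + d = i + (d + 1) := by ring
        rw [e2, e3]
      rw [sum_congr rfl e1, sum_add_distrib, sum_sub_distrib, ← mul_sum]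
      have h6 : ∑ x ∈ range q, f ((x : ℤ) + 1) * f ((x : ℤ) + 1 + d) =
          ∑ x ∈ range q, f x * f (x + d) + (f q * f (q + d) - f 0 * f (0 + d)) :=
        lft_shift (fun x => f x * f (x + d)) q
      have h7 : f q * f (q + d) - f 0 * f (0 + d) = 0 := by
        have g1 := hperf 0
        have g2 := hperf (0 + d)
        rw [zero_add] at g1
        have e4 : (0 : ℤ) + d + q = q + d := by ring
        rw [e4] at g2
        rw [g1, g2, sub_self]
      rw [h6, h7]
      unfold co
      ring
    linarith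
  · -- the sum of the steps ahead
    have hs : ∀ n : ℕ, ∑ x ∈ range q, A ((x : ℤ) + n) = ∑ x ∈ range q, A x + 4 * W * n := by
      intro n
      induction n with
      | zero => simp
      | succ n ih =>
        have h3 : ∑ x ∈ range q, A ((x : ℤ) + 1 + n) =
            ∑ x ∈ range q, A ((x : ℤ) + n) + (A (q + n) - A (0 + n)) :=
          lft_shift (fun x => A (x + n)) q
        have e1 : ∀ x ∈ range q, A ((x : ℤ) + ((n + 1 : ℕ) : ℤ)) = A ((x : ℤ) + 1 + n) := by
          intro x _
          congr 1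
          push_cast
          ring
        rw [sum_congr rfl e1, h3, ih]
        have h4 := hWx (0 + n)
        have e2 : (0 : ℤ) + n + q = q + n := by ring
        rw [e2] at h4
        rw [h4]
        push_cast
        ring
    obtain ⟨n, hn⟩ := Int.eq_ofNat_of_zero_le h0
    have h3 := hs n
    rw [← hn] at h3
    have h4 : ∑ x ∈ range q, A ((x : ℤ) + d) - ∑ x ∈ range q, A x =
        4 * J 0 * q + q + (((range q).filter (fun x : ℕ => f ((x : ℤ) + 2 * d) = f x)).card : ℤ) := by
      rw [← sum_sub_distrib]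
      have e1 : ∀ x ∈ range q, A ((x : ℤ) + d) - A x =
          (4 * J 0 + 1) + (if f ((x : ℤ) + 2 * d) = f x then 1 else 0) := by
        intro x _
        rw [hJ (x : ℤ), hJ0 (x : ℤ)]
        unfold ldl
        split_ifs <;> ring
      rw [sum_congr rfl e1, sum_add_distrib, sum_const, card_range, nsmul_eq_mul,
        sum_boole]
      ring
    rw [alt_count hf hP hA h1 h2] at h4
    linarith

end Pool.Agent.WND
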