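import Pool.Agent.WND.Defs

/-!
# WND: the orbit of a closed chain
-/

set_option autoImplicit false

open Finset

namespace Pool.Agent.WND

private lemma const_nat (g : ℤ → ℤ) (a : ℤ) : ∀ n : ℕ,
    (∀ x, a ≤ x → x < a + n → g (x + 1) = g x) → g (a + n) = g a := by
  intro n
  induction n with
  | zero => intro _; simp
  | succ n ih =>
    intro h
    have h1 := ih (fun x hx hx' => h x hx (by push_cast; linarith))
    have h2 := h (a + n) (by linarith [Int.natCast_nonneg n]) (by push_cast; linarith)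
    have h3 : a + ((n + 1 : ℕ) : ℤ) = a + n + 1 := by push_cast; ring
    rw [h3, h2, h1]

private lemma const_seg (g : ℤ → ℤ) {a b : ℤ} (hab : a ≤ b)
    (h : ∀ x, a ≤ x → x < b → g (x + 1) = g x) : g b = g a := by
  obtain ⟨n, hn⟩ := Int.eq_ofNat_of_zero_le (sub_nonneg.2 hab)
  have hb : b = a + n := by linarith
  rw [hb]
  exact const_nat g a n (fun x hx hx' => h x hx (by rw [hb]; exact hx'))

private lemma per_nat {A : ℤ → ℤ} {q : ℕ} {W : ℤ} (hA2 : ∀ x, A (x + q) = A x + 4 * W) :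
    ∀ (n : ℕ) (x : ℤ), A (x + n * q) = A x + 4 * W * n := by
  intro n
  induction n with
  | zero => intro x; simp
  | succ n ih =>
    intro x
    have h : x + ((n + 1 : ℕ) : ℤ) * q = (x + n * q) + q := by push_cast; ring
    rw [h, hA2, ih]
    push_cast
    ring

private lemma per_int {A : ℤ → ℤ} {q : ℕ} {W : ℤ} (hA2 : ∀ x, A (x + q) = A x + 4 * W)
    (p x : ℤ) : A (x + p * q) = A x + 4 * W * p := by
  rcases Int.eq_nat_or_neg p with ⟨n, rfl | rfl⟩
  · exact per_nat hA2 n x
  · have h := per_nat hA2 n (x + -(n : ℤ) * q)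
    have h1 : x + -(n : ℤ) * q + n * q = x := by ring
    rw [h1] at h
    linarith

theorem orbit {f : ℤ → ℤ} (hf : Pm f) {q : ℕ} {L : ℕ} {p W j d K : ℤ} (hK : 0 ≤ K)
    {Y : ℕ → ℤ} {A : ℤ → ℤ}
    (hY : ∀ t ≤ L, f (Y (t + 1)) = - f (Y t))
    (hZ : ∀ t ≤ L + 1, ∀ y, Y t - 2 * K ≤ y → y < Y t → ¬ Fl f y)
    (hc : ∀ t ≤ L + 1, |Y t - Y 0 - t * d| ≤ K)
    (hYL : Y L = Y 0 + p * q) (hYL1 : Y (L + 1) = Y 1 + p * q)
    (hA1 : ∀ x, A (x + d) - A x = 4 * j + (if f (x + 2 * d) = f x then 2 else 1))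
    (hA2 : ∀ x, A (x + q) = A x + 4 * W)
    (hA3 : ∀ x, ¬ Fl f x → ¬ Fl f (x + d) → A (x + 1) = A x) :
    2 * W * p = L * (2 * j + 1) := by
  have _ := hf
  have _ := hK
  let n : ℕ → ℤ := fun t => Y 0 - K + t * d
  have hn : ∀ t, n t = Y 0 - K + t * d := fun _ => rfl
  have hn1 : ∀ t ≤ L + 1, Y t - 2 * K ≤ n t ∧ n t ≤ Y t := by
    intro t ht
    have h := abs_le.1 (hc t ht)
    rw [hn]
    constructor <;> linarith [h.1, h.2]
  have hfn : ∀ t ≤ L + 1, f (n t) = f (Y t) := by
    intro t ht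
    obtain ⟨h1, h2⟩ := hn1 t ht
    exact (const_seg f h2 (fun x hx hx' => not_not.1 (hZ t ht x (by linarith) hx'))).symm
  have hnd : ∀ t, n (t + 1) = n t + d := by
    intro t
    rw [hn, hn]
    push_cast
    ring
  have hstep : ∀ t, t < L → A (n (t + 1)) - A (n t) = 4 * j + 2 := by
    intro t ht
    have h1 : n t + 2 * d = n (t + 2) := by
      rw [hn, hn]; push_cast; ring
    have h2 : f (n (t + 2)) = f (n t) := by
      rw [hfn (t + 2) (by omega), hfn t (by omega), hY (t + 1) (by omega), hY t (by omega)]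
      ring
    have h3 := hA1 (n t)
    rw [h1, if_pos h2, ← hnd] at h3
    exact h3
  have hsum : ∀ m : ℕ, m ≤ L → A (n m) - A (n 0) = m * (4 * j + 2) := by
    intro m
    induction m with
    | zero => intro _; simp
    | succ m ih =>
      intro hm
      have h1 := ih (by omega)
      have h2 := hstep m (by omega)
      push_cast
      linarith
  have hL := hsum L le_rfl
  -- the segment
  have hA0 : A (n 0 + p * q) = A (n 0) + 4 * W * p := per_int hA2 p (n 0)
  have hmL := hn1 L (by omega)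
  have hmL1 := hn1 (L + 1) le_rfl
  have hm0 := hn1 0 (by omega)
  have hm1 := hn1 1 (by omega)
  have e1 : n (L + 1) = n L + d := hnd L
  have e0 : n 1 = n 0 + d := hnd 0
  have hA : A (n L) = A (n 0 + p * q) := by
    have key : ∀ a b : ℤ, a ≤ b → Y L - 2 * K ≤ a → b ≤ Y L → Y (L + 1) - 2 * K ≤ a + d →
        b + d ≤ Y (L + 1) → A b = A a := by
      intro a b hab h1 h2 h3 h4
      refine const_seg A hab (fun x hx hx' => hA3 x ?_ ?_)
      · exact hZ L (by omega) x (by linarith) (by linarith)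
      · exact hZ (L + 1) le_rfl (x + d) (by linarith) (by linarith)
    rcases le_total (n L) (n 0 + p * q) with h | h
    · symm
      exact key _ _ h hmL.1 (by rw [hYL]; linarith [hm0.2]) (by rw [← e1]; exact hmL1.1)
        (by rw [hYL1]; linarith [hm1.2])
    · exact key _ _ h (by rw [hYL]; linarith [hm0.1]) hmL.2 (by rw [hYL1]; linarith [hm1.1])
        (by rw [← e1]; exact hmL1.2)
  have h5 : 4 * W * p = L * (4 * j + 2) := by linarith
  have h6 : 2 * (2 * W * p) = 2 * (L * (2 * j + 1)) := by linarith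
  linarith

end Pool.Agent.WND
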