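import Pool.Agent.WND.Eq
import Pool.Agent.WND.Chn

/-!
# WND / Pig: the closed chain of changes
-/

set_option autoImplicit false

open Finset

namespace Pool.Agent.WND

theorem pig_per {f : ℤ → ℤ} {q : ℕ} (hP : Per f q) (n x : ℤ) : f (x + n * q) = f x := by
  have h1 : ∀ (m : ℕ) (x : ℤ), f (x + m * q) = f x := by
    intro m
    induction m with
    | zero => intro x; simp
    | succ m ih =>
      intro x
      have e : x + ((m + 1 : ℕ) : ℤ) * q = (x + m * q) + q := by push_cast; ring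
      rw [e, hP, ih]
  rcases Int.eq_nat_or_neg n with ⟨m, rfl | rfl⟩
  · exact h1 m x
  · have h2 := h1 m (x + -(m : ℤ) * q)
    rw [← h2]
    congr 1
    ring

theorem pig_fl {f : ℤ → ℤ} {q : ℕ} (hP : Per f q) (n : ℤ) {x : ℤ} (h : Fl f x) :
    Fl f (x + n * q) := by
  unfold Fl at *
  have e : x + n * q + 1 = (x + 1) + n * q := by ring
  rw [e, pig_per hP, pig_per hP]
  exact h

theorem pig_close {f : ℤ → ℤ} (hf : Pm f) {a b : ℤ} (hA : Av f a b) (ha : 0 < a)
    {u v u' v' : ℤ} (hu : Fl f u) (hv : Fl f v) (hu' : Fl f u') (hv' : Fl f v')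
    (h1 : u + a < v) (h2' : v' < u' + b) (hlt : v < v')
    (hcl : 2 * (v' - v) < b - a - ((v - u) - (v' - u'))) : False := by
  by_cases c1 : v' < u + b
  · exact uniq_right hf hA ha hu hv hv' h1 hlt c1
  by_cases c2 : u' + a < v
  · exact uniq_right hf hA ha hu' hv hv' c2 hlt h2'
  linarith

/-- ROW PIG -/
theorem closed_chain {f : ℤ → ℤ} (hf : Pm f) {q : ℕ} (hP : Per f q) {a b : ℤ} (hA : Av f a b)
    (ha : 0 < a) {M : ℕ} (hM : 2 ≤ M) (hq : 1000 * M ^ 4 ≤ q)
    (hab : 4 * (q : ℤ) ≤ M * (b - a)) {x0 d0 : ℤ} (h0 : Fl f x0) (h1 : Fl f (x0 + d0))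
    (hd1 : a + 100 * (M : ℤ) ^ 2 ≤ d0) (hd2 : d0 + 100 * (M : ℤ) ^ 2 ≤ b) :
    ∃ (L : ℕ) (p : ℤ) (Y : ℕ → ℤ), 0 < L ∧ L ≤ M ∧
      (∀ t ≤ L, f (Y (t + 1)) = - f (Y t)) ∧
      (∀ t ≤ L + 1, ∀ y, Y t - 2 * (((M : ℤ) + 1) * (4 * M + 2)) ≤ y → y < Y t → ¬ Fl f y) ∧
      Y L = Y 0 + p * q ∧ Y (L + 1) = Y 1 + p * q ∧
      (∀ t ≤ L, |(L : ℤ) * (Y (t + 1) - Y t) - p * q| ≤ L * L) ∧
      |(L : ℤ) * d0 - p * q| ≤ 2 * M * L := by
  have hM2 : (2 : ℤ) ≤ M := by exact_mod_cast hM
  have hMM : 2 * (M : ℤ) ≤ (M : ℤ) ^ 2 := by nlinarith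
  obtain ⟨X, hX0, hX1, hXF, hXa, hXd⟩ := chain_ex hf hA ha (T := M + 1) h0 h1
    (by push_cast; linarith) (by push_cast; linarith)
  -- the differences
  have hD0 : ∀ t ≤ M + 1, |X (t + 1) - X t - d0| ≤ t := by
    intro t
    induction t with
    | zero => intro _; rw [hX0, hX1]; simp
    | succ t ih =>
      intro ht
      have e1 := ih (by omega)
      have e2 := hXd t (by omega)
      rw [abs_le] at e1 e2 ⊢
      push_cast
      constructor <;> linarith [e1.1, e1.2, e2.1, e2.2]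
  have hDD : ∀ s t, s ≤ t → t ≤ M + 1 →
      |(X (t + 1) - X t) - (X (s + 1) - X s)| ≤ (t : ℤ) - s := by
    intro s t hst
    induction t, hst using Nat.le_induction with
    | base => intro _; simp
    | succ t hst ih =>
      intro ht
      have e1 := ih (by omega)
      have e2 := hXd t (by omega)
      rw [abs_le] at e1 e2 ⊢
      push_cast
      constructor <;> linarith [e1.1, e1.2, e2.1, e2.2]
  -- the blocks
  obtain ⟨s, hs⟩ : ∃ s : ℤ, s = (b - a - M - 1) / 2 := ⟨_, rfl⟩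
  have hs1 : 2 * s ≤ b - a - M - 1 := by omega
  have hs2 : b - a - M - 2 ≤ 2 * s := by omega
  have hqZ : 1000 * (M : ℤ) ^ 4 ≤ q := by exact_mod_cast hq
  have hM4 : (M : ℤ) ^ 2 ≤ (M : ℤ) ^ 4 := by nlinarith [sq_nonneg ((M : ℤ) ^ 2 - 1)]
  have hsM : (q : ℤ) < M * s := by
    have e1 : (M : ℤ) * (b - a - M - 2) ≤ M * (2 * s) :=
      mul_le_mul_of_nonneg_left hs2 (by linarith)
    nlinarith
  have hq0 : (0 : ℤ) < q := by nlinarith
  have hs0 : 0 < s := by
    by_contra hc
    push Not at hc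
    have : (M : ℤ) * s ≤ 0 := mul_nonpos_of_nonneg_of_nonpos (by linarith) hc
    linarith
  obtain ⟨i, hi, j, hj, hne, he⟩ := Finset.exists_ne_map_eq_of_card_lt_of_maps_to
    (s := Icc 1 (M + 1)) (t := range M) (by rw [card_range, Nat.card_Icc]; omega)
    (f := fun t => ((X t % q) / s).toNat) (by
      intro t _
      have e1 : 0 ≤ X t % q := Int.emod_nonneg _ hq0.ne'
      have e2 : X t % q < q := Int.emod_lt_of_pos _ hq0
      have e3 : (X t % q) / s < M := by
        rw [Int.ediv_lt_iff_lt_mul hs0]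
        linarith
      have e4 : 0 ≤ (X t % q) / s := Int.ediv_nonneg e1 hs0.le
      simp only [coe_range, Set.mem_Iio]
      omega)
  have key : ∀ i j, 1 ≤ i → i < j → j ≤ M + 1 →
      ((X i % q) / s).toNat = ((X j % q) / s).toNat → ∃ w : ℤ, X j = X i + w * q := by
    intro i j hi hij hj he
    have e1 : 0 ≤ X i % q := Int.emod_nonneg _ hq0.ne'
    have e2 : 0 ≤ X j % q := Int.emod_nonneg _ hq0.ne'
    have e3 : 0 ≤ (X i % q) / s := Int.ediv_nonneg e1 hs0.le
    have e4 : 0 ≤ (X j % q) / s := Int.ediv_nonneg e2 hs0.le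
    have e5 : (X i % q) / s = (X j % q) / s := by omega
    have f1 := Int.emod_add_mul_ediv (X i % q) s
    have f2 := Int.emod_add_mul_ediv (X j % q) s
    have g1 := Int.emod_nonneg (X i % q) hs0.ne'
    have g2 := Int.emod_lt_of_pos (X i % q) hs0
    have g3 := Int.emod_nonneg (X j % q) hs0.ne'
    have g4 := Int.emod_lt_of_pos (X j % q) hs0
    rw [e5] at f1
    have t1 : X j % q - X i % q < s := by linarith
    have t2 : X i % q - X j % q < s := by linarith
    have k1 := Int.emod_add_mul_ediv (X i) q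
    have k2 := Int.emod_add_mul_ediv (X j) q
    obtain ⟨w, hw⟩ : ∃ w : ℤ, w = X j / q - X i / q := ⟨_, rfl⟩
    obtain ⟨τ, hτ⟩ : ∃ τ : ℤ, τ = X j % q - X i % q := ⟨_, rfl⟩
    have hXj : X j = X i + τ + w * q := by
      rw [hw, hτ]
      linear_combination k1 - k2
    refine ⟨w, ?_⟩
    obtain ⟨i', rfl⟩ : ∃ i', i = i' + 1 := ⟨i - 1, by omega⟩
    obtain ⟨j', rfl⟩ : ∃ j', j = j' + 1 := ⟨j - 1, by omega⟩
    have di := abs_le.1 (hD0 i' (by omega))
    have dj := abs_le.1 (hD0 j' (by omega))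
    have dd := abs_le.1 (hDD i' j' (by omega) (by omega))
    have hi'M : (i' : ℤ) ≤ M := by exact_mod_cast (by omega : i' ≤ M)
    have hj'M : (j' : ℤ) ≤ M := by exact_mod_cast (by omega : j' ≤ M)
    have hi'0 : (0 : ℤ) ≤ i' := Int.natCast_nonneg _
    have Fi := hXF i' (by omega)
    have Fi1 := hXF (i' + 1) (by omega)
    have Fj := pig_fl hP (-w) (hXF j' (by omega))
    have Fj1 := pig_fl hP (-w) (hXF (j' + 1) (by omega))
    rcases lt_trichotomy τ 0 with h | h | h
    · exfalso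
      refine pig_close hf hA ha Fj Fj1 Fi Fi1 ?_ ?_ ?_ ?_ <;> nlinarith
    · rw [hXj, h, add_zero]
    · exfalso
      refine pig_close hf hA ha Fi Fi1 Fj Fj1 ?_ ?_ ?_ ?_ <;> nlinarith
  obtain ⟨i, j, hi, hij, hj, w, hw⟩ : ∃ i j, 1 ≤ i ∧ i < j ∧ j ≤ M + 1 ∧
      ∃ w : ℤ, X j = X i + w * q := by
    rw [mem_Icc] at hi hj
    rcases lt_or_gt_of_ne hne with h | h
    · exact ⟨i, j, hi.1, h, hj.2, key i j hi.1 h hj.2 he⟩
    · exact ⟨j, i, hj.1, h, hi.2, key j i hj.1 h hi.2 he.symm⟩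
  clear key he
  obtain ⟨L, rfl⟩ : ∃ L, j = i + L := ⟨j - i, by omega⟩
  have hLM : L ≤ M := by omega
  have hL0 : 0 < L := by omega
  have hsum : (w : ℤ) * q = ∑ t ∈ range L, (X (i + t + 1) - X (i + t)) := by
    have e := Finset.sum_range_sub (fun t => X (i + t)) L
    simp only [add_zero] at e
    rw [show (w : ℤ) * q = X (i + L) - X i by rw [hw]; ring, ← e]
    rfl
  have hYL1 : X (i + L + 1) = X (i + 1) + w * q := by
    have Fa := hXF (i + L) (by omega)
    have Fb := hXF (i + L + 1) (by omega)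
    have Fc := pig_fl hP w (hXF (i + 1) (by omega))
    have di := abs_le.1 (hD0 i (by omega))
    have dj := abs_le.1 (hD0 (i + L) (by omega))
    have hiM : (i : ℤ) ≤ M + 1 := by exact_mod_cast (by omega : i ≤ M + 1)
    have hjM : ((i + L : ℕ) : ℤ) ≤ M + 1 := by exact_mod_cast (by omega : i + L ≤ M + 1)
    rcases lt_trichotomy (X (i + L + 1)) (X (i + 1) + w * q) with h | h | h
    · exact (uniq_right hf hA ha Fa Fb Fc (by linarith) h (by linarith)).elim
    · exact h
    · exact (uniq_right hf hA ha Fa Fc Fb (by linarith) h (by linarith)).elim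
  refine ⟨L, w, fun t => X (i + t), hL0, hLM, ?_, ?_, ?_, ?_, ?_, ?_⟩
  · intro t ht
    exact hXa (i + t) (by omega)
  · intro t ht y hy1 hy2 hF
    obtain ⟨r, hr⟩ : ∃ r, i + t = r + 1 := ⟨i + t - 1, by omega⟩
    simp only [hr] at hy1 hy2
    have Fa := hXF r (by omega)
    have Fb := hXF (r + 1) (by omega)
    have dr := abs_le.1 (hD0 r (by omega))
    have hrM : (r : ℤ) ≤ M + 1 := by exact_mod_cast (by omega : r ≤ M + 1)
    refine uniq_right hf hA ha Fa hF Fb ?_ hy2 (by linarith)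
    nlinarith
  · exact hw
  · exact hYL1
  · intro t ht
    have e : (L : ℤ) * (X (i + (t + 1)) - X (i + t)) - w * q =
        ∑ s ∈ range L, ((X (i + t + 1) - X (i + t)) - (X (i + s + 1) - X (i + s))) := by
      rw [sum_sub_distrib, ← hsum, sum_const, card_range, nsmul_eq_mul, add_assoc]
    show |(L : ℤ) * (X (i + (t + 1)) - X (i + t)) - w * q| ≤ L * L
    rw [e]
    refine (abs_sum_le_sum_abs _ _).trans ?_
    have : ∀ s ∈ range L, |(X (i + t + 1) - X (i + t)) - (X (i + s + 1) - X (i + s))| ≤ (L : ℤ) := by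
      intro s hs
      rw [mem_range] at hs
      rcases le_total s t with h | h
      · refine (hDD (i + s) (i + t) (by omega) (by omega)).trans ?_
        push_cast
        have : (t : ℤ) ≤ L := by exact_mod_cast ht
        have : (0 : ℤ) ≤ s := Int.natCast_nonneg _
        linarith
      · rw [abs_sub_comm]
        refine (hDD (i + t) (i + s) (by omega) (by omega)).trans ?_
        push_cast
        have : (s : ℤ) ≤ L := by exact_mod_cast hs.le
        have : (0 : ℤ) ≤ t := Int.natCast_nonneg _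
        linarith
    refine (sum_le_sum this).trans ?_
    rw [sum_const, card_range, nsmul_eq_mul]
  · have e : (L : ℤ) * d0 - w * q = ∑ s ∈ range L, (d0 - (X (i + s + 1) - X (i + s))) := by
      rw [sum_sub_distrib, ← hsum, sum_const, card_range, nsmul_eq_mul]
    rw [e]
    refine (abs_sum_le_sum_abs _ _).trans ?_
    have : ∀ s ∈ range L, |d0 - (X (i + s + 1) - X (i + s))| ≤ 2 * (M : ℤ) := by
      intro s hs
      rw [mem_range] at hs
      rw [abs_sub_comm]
      refine (hD0 (i + s) (by omega)).trans ?_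
      have : ((i + s : ℕ) : ℤ) ≤ M := by exact_mod_cast (by omega : i + s ≤ M)
      linarith
    refine (sum_le_sum this).trans ?_
    rw [sum_const, card_range, nsmul_eq_mul]
    linarith

end Pool.Agent.WND
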