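import Pool.Agent.WND.Defs
import Pool.Agent.WND.Eq
import Pool.Agent.WND.Rng

set_option autoImplicit false

open Finset

namespace Pool.Agent.WND

private lemma SD_id {f : ℤ → ℤ} {q : ℕ} (hP : Per f q) (d : ℤ) :
    ∑ x ∈ range q, (f ((x : ℤ) + 1) - f x) * (f ((x : ℤ) + d + 1) - f ((x : ℤ) + d)) =
      2 * co f q d - co f q (d + 1) - co f q (d - 1) := by
  have hper : ∀ e x : ℤ, f (x + q) * f (x + q + e) = f x * f (x + e) := by
    intro e x
    have h : x + q + e = x + e + q := by ring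
    rw [h, hP x, hP (x + e)]
  have h1 : ∑ x ∈ range q, f ((x : ℤ) + 1) * f ((x : ℤ) + 1 + d) = co f q d :=
    rng_shift (g := fun x => f x * f (x + d)) (hper d) 1
  have h2 : ∑ x ∈ range q, f ((x : ℤ) + 1) * f ((x : ℤ) + 1 + (d - 1)) = co f q (d - 1) :=
    rng_shift (g := fun x => f x * f (x + (d - 1))) (hper (d - 1)) 1
  have h3 : ∑ x ∈ range q, f (x : ℤ) * f ((x : ℤ) + (d + 1)) = co f q (d + 1) := rfl
  have h4 : ∑ x ∈ range q, f (x : ℤ) * f ((x : ℤ) + d) = co f q d := rfl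
  have h5 : ∀ x ∈ range q, (f ((x : ℤ) + 1) - f x) * (f ((x : ℤ) + d + 1) - f ((x : ℤ) + d)) =
      f ((x : ℤ) + 1) * f ((x : ℤ) + 1 + d) - f ((x : ℤ) + 1) * f ((x : ℤ) + 1 + (d - 1)) -
        f (x : ℤ) * f ((x : ℤ) + (d + 1)) + f (x : ℤ) * f ((x : ℤ) + d) := by
    intro x _
    rw [show (x : ℤ) + 1 + d = (x : ℤ) + d + 1 by ring,
      show (x : ℤ) + 1 + (d - 1) = (x : ℤ) + d by ring,
      show (x : ℤ) + (d + 1) = (x : ℤ) + d + 1 by ring]
    ring
  rw [Finset.sum_congr rfl h5, Finset.sum_add_distrib, Finset.sum_sub_distrib,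
    Finset.sum_sub_distrib, h1, h2, h3, h4]
  ring

theorem co_convex {f : ℤ → ℤ} (hf : Pm f) {q : ℕ} (hP : Per f q) {a b : ℤ} (hA : Av f a b)
    (ha : 0 < a) {d : ℤ} (h1 : a < d) (h2 : d < b) :
    2 * co f q d ≤ co f q (d + 1) + co f q (d - 1) := by
  have h3 := SD_id (q := q) hP d
  have h4 : ∑ x ∈ range q, (f ((x : ℤ) + 1) - f x) * (f ((x : ℤ) + d + 1) - f ((x : ℤ) + d)) ≤ 0 := by
    refine Finset.sum_nonpos fun x _ => ?_
    by_cases hx : Fl f x
    · by_cases hy : Fl f ((x : ℤ) + d)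
      · have h5 := no_eq hf hA ha h1 h2 hx hy
        have h6 : f ((x : ℤ) + 1) ≠ f x := hx
        have h7 : f ((x : ℤ) + d + 1) ≠ f ((x : ℤ) + d) := hy
        have h8 : f ((x : ℤ) + 1) = - f x := by
          rcases hf (x : ℤ) with e1 | e1 <;> rcases hf ((x : ℤ) + 1) with e2 | e2 <;> omega
        have h9 : f ((x : ℤ) + d + 1) = f x := by
          rcases hf ((x : ℤ) + d) with e1 | e1 <;> rcases hf ((x : ℤ) + d + 1) with e2 | e2 <;>
            omega
        rw [h5, h8, h9]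
        nlinarith [sq_nonneg (f (x : ℤ))]
      · have h7 : f ((x : ℤ) + d + 1) = f ((x : ℤ) + d) := by
          by_contra h8
          exact hy h8
        rw [h7, sub_self, mul_zero]
    · have h7 : f ((x : ℤ) + 1) = f x := by
        by_contra h8
        exact hx h8
      rw [h7, sub_self, zero_mul]
  linarith

theorem co_flat {f : ℤ → ℤ} (hf : Pm f) {q : ℕ} (hP : Per f q) {d : ℤ} (h : ¬ Vx f d) :
    co f q (d + 1) + co f q (d - 1) = 2 * co f q d := by
  have _ := hf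
  have h3 := SD_id (q := q) hP d
  have h4 : ∑ x ∈ range q, (f ((x : ℤ) + 1) - f x) * (f ((x : ℤ) + d + 1) - f ((x : ℤ) + d)) = 0 := by
    refine Finset.sum_eq_zero fun x _ => ?_
    by_cases hx : Fl f x
    · have h7 : f ((x : ℤ) + d + 1) = f ((x : ℤ) + d) := by
        by_contra h8
        exact h ⟨x, hx, h8⟩
      rw [h7, sub_self, mul_zero]
    · have h7 : f ((x : ℤ) + 1) = f x := by
        by_contra h8
        exact hx h8
      rw [h7, sub_self, zero_mul]
  linarith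

end Pool.Agent.WND
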