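import Pool.Agent.WND.Pig
import Pool.Agent.WND.Orb
import Pool.Agent.WND.Lft

set_option autoImplicit false

open Finset

namespace Pool.Agent.WND

private lemma WIN_drift {Y : ℕ → ℤ} {L : ℕ} {d c : ℤ}
    (h : ∀ t ≤ L, |Y (t + 1) - Y t - d| ≤ c) :
    ∀ t ≤ L + 1, |Y t - Y 0 - t * d| ≤ t * c := by
  intro t
  induction t with
  | zero => intro _; simp
  | succ t ih =>
    intro ht
    have h1 := ih (by omega)
    have h2 := h t (by omega)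
    have e : Y (t + 1) - Y 0 - ((t + 1 : ℕ) : ℤ) * d
        = (Y (t + 1) - Y t - d) + (Y t - Y 0 - t * d) := by push_cast; ring
    have e2 : ((t + 1 : ℕ) : ℤ) * c = c + t * c := by push_cast; ring
    rw [e, e2]
    exact (abs_add_le _ _).trans (add_le_add h2 h1)

theorem window {f : ℤ → ℤ} (hf : Pm f) {q : ℕ} (hP : Per f q) {a b : ℤ} (hA : Av f a b)
    (ha : 0 < a) {M : ℕ} (hM : 2 ≤ M) (hq : 1000 * M ^ 4 ≤ q)
    (hab : 4 * (q : ℤ) ≤ M * (b - a)) {d0 : ℤ} (hv : Vx f d0)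
    (hd1 : a + 100 * (M : ℤ) ^ 2 ≤ d0) (hd2 : d0 + 100 * (M : ℤ) ^ 2 ≤ b) :
    ∃ L p : ℤ, 0 < L ∧ L ≤ M ∧ |L * d0 - p * q| ≤ 2 * M * L ∧
      ∀ d, a ≤ d → d ≤ b → ¬ Vx f d → |L * d - p * q| ≤ (3 * M + 2) * L →
        ∃ W j : ℤ, 4 * W = co f q d - co f q (d + 1) ∧ 4 * W * d = 4 * j * q + q - co f q d ∧
          2 * W * p = L * (2 * j + 1) := by
  obtain ⟨x0, h0, h1⟩ := hv
  obtain ⟨L, p, Y, hL0, hLM, hY, hZ, hYL, hYL1, hdel, hLd⟩ :=
    closed_chain hf hP hA ha hM hq hab h0 h1 hd1 hd2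
  have hL0' : (0 : ℤ) < L := by exact_mod_cast hL0
  have hLM' : (L : ℤ) ≤ M := by exact_mod_cast hLM
  refine ⟨L, p, hL0', hLM', hLd, ?_⟩
  intro d hda hdb hdv hdL
  obtain ⟨A, W, j, hA1, hA2, hA3, hW1, hW2⟩ := lift hf hP hA (by omega) hda hdb hdv
  refine ⟨W, j, hW1, hW2, ?_⟩
  have hstep : ∀ t ≤ L, |Y (t + 1) - Y t - d| ≤ 4 * (M : ℤ) + 2 := by
    intro t ht
    have k1 := hdel t ht
    have k2 : |(L : ℤ) * (Y (t + 1) - Y t - d)| ≤ L * (4 * (M : ℤ) + 2) := by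
      have e : (L : ℤ) * (Y (t + 1) - Y t - d)
          = ((L : ℤ) * (Y (t + 1) - Y t) - p * q) - ((L : ℤ) * d - p * q) := by ring
      rw [e]
      have k3 : |((L : ℤ) * (Y (t + 1) - Y t) - p * q) - ((L : ℤ) * d - p * q)|
          ≤ L * L + (3 * M + 2) * L := (abs_sub _ _).trans (add_le_add k1 hdL)
      nlinarith
    rw [abs_mul, abs_of_pos hL0'] at k2
    exact le_of_mul_le_mul_left k2 hL0'
  have hdr := WIN_drift hstep
  have hK : (0 : ℤ) ≤ ((M : ℤ) + 1) * (4 * M + 2) := by positivity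
  refine orbit hf hK hY hZ ?_ hYL hYL1 hA1 hA2 hA3
  intro t ht
  refine (hdr t ht).trans ?_
  have ht' : (t : ℤ) ≤ (M : ℤ) + 1 := by
    have : t ≤ M + 1 := by omega
    exact_mod_cast this
  exact mul_le_mul_of_nonneg_right ht' (by positivity)

end Pool.Agent.WND
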