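import Pool.Agent.WND.Sd
import Pool.Agent.WND.Rng
import Pool.Agent.WND.Lft
import Pool.Agent.WND.Win
import Pool.Agent.WND.Ari

set_option autoImplicit false

open Finset

namespace Pool.Agent.WND

/-! ROW STC (file StepC.lean; uses SD, RNG, LFT, WIN, ARI) -/
theorem step_c {f : ℤ → ℤ} (hf : Pm f) {q : ℕ} (hP : Per f q) {a b : ℤ} (hA : Av f a b)
    (ha : 0 < a) {M : ℕ} (hM : 2 ≤ M) (hq : 1000 * M ^ 4 ≤ q)
    (hab : 4 * (q : ℤ) ≤ M * (b - a)) :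
    ∃ k : ℤ, 1 ≤ k ∧ k * (b - a) ≤ q ∧
      ∀ d, a + 200 * (M : ℤ) ^ 2 ≤ d → d ≤ b - 200 * (M : ℤ) ^ 2 →
        ∀ n : ℤ, (q : ℤ) ≤ 4 * |k * d - n * q| := by
  have hMz : (2 : ℤ) ≤ (M : ℤ) := by exact_mod_cast hM
  have hqz : 1000 * (M : ℤ) ^ 4 ≤ (q : ℤ) := by exact_mod_cast hq
  have hM0 : (0 : ℤ) < (M : ℤ) := by linarith
  have hbig : 4000 * (M : ℤ) ^ 3 ≤ b - a := by
    have h1 : (M : ℤ) * (4000 * (M : ℤ) ^ 3) ≤ (M : ℤ) * (b - a) := by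
      calc (M : ℤ) * (4000 * (M : ℤ) ^ 3) = 4 * (1000 * (M : ℤ) ^ 4) := by ring
        _ ≤ 4 * (q : ℤ) := by linarith
        _ ≤ _ := hab
    exact le_of_mul_le_mul_left h1 hM0
  have hM2 : 2 * (M : ℤ) ≤ (M : ℤ) ^ 2 := by nlinarith
  have hM3 : 2 * (M : ℤ) ^ 2 ≤ (M : ℤ) ^ 3 := by
    have : (M : ℤ) ^ 3 = (M : ℤ) * (M : ℤ) ^ 2 := by ring
    rw [this]
    exact mul_le_mul_of_nonneg_right hMz (by positivity)
  have hbig2 : 8000 * (M : ℤ) ^ 2 ≤ b - a := by linarith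
  obtain ⟨k, hk1, hk2, hk3⟩ := arith (q := (q : ℤ)) (M := (M : ℤ)) (co f q) (Vx f)
    (a + 100 * (M : ℤ) ^ 2) (b - 100 * (M : ℤ) ^ 2) hMz hqz (by linarith)
    (fun d h1 h2 => co_convex hf hP hA ha (by nlinarith) (by nlinarith))
    (fun d _ _ hv => co_flat hf hP hv)
    (fun d h1 h2 => co_range hf hP hA (by nlinarith) (by nlinarith))
    (fun d h1 h2 hv => by
      obtain ⟨A, W, j, _, _, _, h4, h5⟩ := lift hf hP hA (d := d) (by nlinarith) (by nlinarith)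
        (by nlinarith) hv
      exact ⟨W, j, h4, h5⟩)
    (fun d0 h1 h2 hv => by
      obtain ⟨L, p, hL0, hLM, hLp, hall⟩ := window hf hP hA ha hM hq hab hv (by linarith)
        (by linarith)
      refine ⟨L, p, hL0, hLM, hLp, fun d h3 h4 hv' hd => ?_⟩
      exact hall d (by nlinarith) (by nlinarith) hv' hd)
  refine ⟨k, hk1, ?_, ?_⟩
  · have h1 : b - a ≤ 2 * ((b - 100 * (M : ℤ) ^ 2 - 10 * (M : ℤ)) -
        (a + 100 * (M : ℤ) ^ 2 + 10 * (M : ℤ))) := by linarith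
    have h2 := mul_le_mul_of_nonneg_left h1 (by linarith : (0 : ℤ) ≤ k)
    calc k * (b - a) ≤ k * (2 * ((b - 100 * (M : ℤ) ^ 2 - 10 * (M : ℤ)) -
        (a + 100 * (M : ℤ) ^ 2 + 10 * (M : ℤ)))) := h2
      _ = 2 * k * ((b - 100 * (M : ℤ) ^ 2 - 10 * (M : ℤ)) -
        (a + 100 * (M : ℤ) ^ 2 + 10 * (M : ℤ))) := by ring
      _ ≤ _ := hk2
  · intro d h1 h2 n
    exact hk3 d (by linarith) (by linarith) n

end Pool.Agent.WND
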